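import Pool.Agent.Lib.LF.X.Spec1

/-!
# C43, block X: the action of the group (helper25, task 12849)
-/

set_option autoImplicit false

namespace Pool.Agent.LF

theorem xActX (hRd : RdXStmt) (hMul : MulXStmt) (hSac : SacXStmt) (hRel : RelXStmt) :
    ActXStmt := by
  intro E H _ bar π nf κ hbar hN Γ _ ι s huniv
  let P : H → XX bar nf → XX bar nf := fun h x =>
    ⟨ac bar π nf κ h x.1.1 x.1.2, (hRd E H bar π nf κ hN x.1.1 h x.1.2 x.2).1⟩
  have hP1 : ∀ x, P 1 x = x := fun x =>
    Subtype.ext ((hMul E H bar π nf κ hN).1 x.1.1 x.1.2 x.2)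
  have hPm : ∀ h h' x, P (h * h') x = P h (P h' x) := fun h h' x =>
    Subtype.ext ((hMul E H bar π nf κ hN).2 x.1.1 h h' x.1.2)
  let φ : H →* Equiv.Perm (XX bar nf) :=
    { toFun := fun h =>
        { toFun := P h
          invFun := P h⁻¹
          left_inv := fun x => by rw [← hPm, inv_mul_cancel, hP1]
          right_inv := fun x => by rw [← hPm, mul_inv_cancel, hP1] }
      map_one' := Equiv.ext fun x => hP1 x
      map_mul' := fun h h' => Equiv.ext fun x => hPm h h' x }
  let Q : E → XX bar nf → XX bar nf := fun e x =>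
    ⟨(sac bar e x.1.1, x.1.2), (hSac E H bar nf hbar hN.one e x.1.1 x.2).1⟩
  have hQ : ∀ e x, Q (bar e) (Q e x) = x := fun e x =>
    Subtype.ext (Prod.ext (hSac E H bar nf hbar hN.one e x.1.1 x.2).2 rfl)
  have hQ' : ∀ e x, Q e (Q (bar e) x) = x := fun e x => by
    have h := hQ (bar e) x
    rwa [hbar] at h
  let σ : E → Equiv.Perm (XX bar nf) := fun e =>
    { toFun := Q e
      invFun := Q (bar e)
      left_inv := hQ e
      right_inv := hQ' e }
  obtain ⟨A, hA, hA'⟩ := huniv (Equiv.Perm (XX bar nf)) φ σ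
    (fun e => Equiv.ext fun x => rfl)
    (fun e => Equiv.ext fun x => Subtype.ext (hRel E H bar π nf κ hbar hN e x.1.1 x.1.2 x.2))
  refine ⟨A, fun h x => ?_, fun e x => ?_⟩
  · rw [hA]
    rfl
  · rw [hA']
    rfl

end Pool.Agent.LF
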