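import Pool.Agent.Lib.LF.X.Spec1

set_option autoImplicit false

namespace Pool.Agent.LF

theorem xDdX : DdXStmt := by
  intro E H _ bar D hsym hself
  have h1 : ∀ (p : E × H) (l : List (E × H)) (y : H) (l' : List (E × H)) (y' : H),
      dd bar D (p :: l) y (p :: l') y' = dd bar D l y l' y' := by
    intro p l y l' y'
    rw [dd, if_pos rfl]
  refine ⟨h1, ?_, ?_, ?_⟩
  · intro l y l' y' h
    cases l with
    | nil =>
      rw [dd, hd, tl, zero_add]
    | cons p l =>
      cases l' with
      | nil => rw [dd, hd, hd, tl.eq_1 bar D y', add_zero]
      | cons p' l' =>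
        have hne : p ≠ p' := by
          intro he
          exact h p rfl (by rw [he]; rfl)
        rw [dd, if_neg hne, hd, hd]
  · intro l y
    induction l with
    | nil =>
      rw [dd, hd, hself, tl, add_zero]
      rfl
    | cons p l ih => rw [h1, ih]
  · intro l
    induction l with
    | nil =>
      intro y l' y'
      cases l' with
      | nil => rw [dd, dd, hd, hd, hsym, tl, tl]
      | cons p' l' => rw [dd, dd, hd, hsym]
    | cons p l ih =>
      intro y l' y'
      cases l' with
      | nil => rw [dd, dd, hd, hsym]
      | cons p' l' =>
        by_cases hp : p = p'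
        · subst hp
          rw [h1, h1, ih]
        · rw [dd, dd, if_neg hp, if_neg (fun h => hp h.symm), hsym,
            add_comm (tl bar D (p :: l) y)]

end Pool.Agent.LF
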