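import Pool.Agent.Lib.LF.X.Spec1

set_option autoImplicit false

namespace Pool.Agent.LF

namespace EvXM

theorem relPow {G : Type} [Group G] (a b s : G) (h : a * s = s * b) (k : ℤ) : a ^ k * s = s * b ^ k := by
  have h1 : SemiconjBy s b a := h.symm
  exact (h1.zpow_right k).symm

end EvXM

theorem xEvX : EvXStmt := by
  intro E H _ bar π nf κ hN Γ _ ι s hs hr
  refine ⟨?_, ?_⟩
  · intro l
    induction l with
    | nil =>
      intro h y
      simp only [ac, ev]
      rw [map_mul]
    | cons p l ih =>
      intro h y
      obtain ⟨e, g⟩ := p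
      simp only [ac, ev]
      rw [ih]
      have h1 := EvXM.relPow _ _ _ (hr e) (κ e (h * g))
      have h2 : ι (π (bar e) ^ (-κ e (h * g))) = ((ι (π (bar e)))⁻¹) ^ κ e (h * g) := by
        rw [map_zpow, zpow_neg, inv_zpow]
      have h3 : ι h * ι g = ι (nf e (h * g)) * ι (π e) ^ κ e (h * g) := by
        rw [← map_mul, ← map_zpow, ← map_mul, hN.eq]
      calc ι (nf e (h * g)) * s e * (ι (π (bar e) ^ (-κ e (h * g))) * ev ι s l y)
          = ι (nf e (h * g)) * (s e * ((ι (π (bar e)))⁻¹) ^ κ e (h * g)) * ev ι s l y := by
            rw [h2]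
            simp only [mul_assoc]
        _ = ι (nf e (h * g)) * (ι (π e) ^ κ e (h * g) * s e) * ev ι s l y := by rw [h1]
        _ = (ι (nf e (h * g)) * ι (π e) ^ κ e (h * g)) * s e * ev ι s l y := by
            simp only [mul_assoc]
        _ = (ι h * ι g) * s e * ev ι s l y := by rw [h3]
        _ = ι h * (ι g * s e * ev ι s l y) := by simp only [mul_assoc]
  · intro e l y
    cases l with
    | nil =>
      simp only [sac, ev]
      rw [map_one, one_mul]
    | cons q l =>
      simp only [sac]
      split_ifs with h
      · rw [h]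
        simp only [ev]
        rw [map_one, one_mul, hs, ← mul_assoc, mul_inv_cancel, one_mul]
      · simp only [ev]
        rw [map_one, one_mul]

end Pool.Agent.LF
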