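import Pool.Agent.Lib.LF.X.Spec1

/-!
# C43, Block X: the four-point inequality if no three heads agree
-/

set_option autoImplicit false

namespace Pool.Agent.LF

namespace FcXM

theorem tadd (a b c d : ℝ) :
    (toLex (a, b) : ℝ ×ₗ ℝ) + toLex (c, d) = toLex (a + c, b + d) := rfl

theorem fst_add (a b : ℝ ×ₗ ℝ) : (ofLex (a + b)).1 = (ofLex a).1 + (ofLex b).1 := rfl

theorem lt_of_fst (a b : ℝ ×ₗ ℝ) (h : (ofLex a).1 < (ofLex b).1) : a < b := by
  rw [Prod.Lex.lt_iff]
  exact Or.inl h

theorem t0_le (a b : ℝ) (h : a ≤ b) : (toLex (0, a) : ℝ ×ₗ ℝ) ≤ toLex (0, b) := by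
  rw [Prod.Lex.le_iff]
  exact Or.inr ⟨rfl, h⟩

end FcXM

open FcXM in
theorem xFcX : FcXStmt := by
  intro E H _ bar π lam D hPD η t δ hδ hs h1 h2 h3
  have n01 := h1 0 1 (by decide)
  have n23 := h1 2 3 (by decide)
  have n02 := h1 0 2 (by decide)
  have n13 := h1 1 3 (by decide)
  have n03 := h1 0 3 (by decide)
  have n12 := h1 1 2 (by decide)
  have m01 := h2 0 1 (by decide)
  have m23 := h2 2 3 (by decide)
  have m02 := h2 0 2 (by decide)
  have m13 := h2 1 3 (by decide)
  have m03 := h2 0 3 (by decide)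
  have m12 := h2 1 2 (by decide)
  have sum : ∀ a b c d : ℝ ×ₗ ℝ, ∀ x y : ℝ, (toLex (0, x) + (a + b)) + (toLex (0, y) + (c + d)) =
      toLex (0, x + y) + (a + b + c + d) := by
    intro a b c d x y
    have : (toLex (0, x + y) : ℝ ×ₗ ℝ) = toLex (0, x) + toLex (0, y) := by
      rw [tadd, add_zero]
    rw [this]
    abel
  have le1 : ∀ i j : Fin 4, i ≠ j →
      (ofLex (δ i j)).1 ≤ (ofLex (t i)).1 + (ofLex (t j)).1 := by
    intro i j hij
    by_cases hsp : SP π (η i) (η j)
    · exact (h2 i j hij hsp).2.le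
    · rw [h1 i j hij hsp, fst_add, fst_add]
      show (0 : ℝ) + _ ≤ _
      rw [zero_add]
  have eq1 : ∀ i j : Fin 4, i ≠ j → ¬ SP π (η i) (η j) →
      (ofLex (δ i j)).1 = (ofLex (t i)).1 + (ofLex (t j)).1 := by
    intro i j hij hsp
    rw [h1 i j hij hsp, fst_add, fst_add]
    show (0 : ℝ) + _ = _
    rw [zero_add]
  by_cases hA : SP π (η 0) (η 1) ∨ SP π (η 2) (η 3)
  · have q02 : ¬ SP π (η 0) (η 2) := by
      intro hh
      rcases hA with hA | hA
      · exact h3 1 0 2 (by decide) (by decide) (by decide) ⟨hs _ _ hA, hh⟩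
      · exact h3 0 2 3 (by decide) (by decide) (by decide) ⟨hh, hA⟩
    have q13 : ¬ SP π (η 1) (η 3) := by
      intro hh
      rcases hA with hA | hA
      · exact h3 0 1 3 (by decide) (by decide) (by decide) ⟨hA, hh⟩
      · exact h3 1 3 2 (by decide) (by decide) (by decide) ⟨hh, hs _ _ hA⟩
    refine le_trans (le_of_lt (lt_of_fst _ _ ?_)) (le_max_left _ _)
    rw [fst_add, fst_add, eq1 0 2 (by decide) q02, eq1 1 3 (by decide) q13]
    have a1 := le1 0 1 (by decide)
    have a2 := le1 2 3 (by decide)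
    rcases hA with hA | hA
    · have := (m01 hA).2
      linarith
    · have := (m23 hA).2
      linarith
  · push Not at hA
    obtain ⟨q01, q23⟩ := hA
    have e01 := n01 q01
    have e23 := n23 q23
    by_cases hB : SP π (η 0) (η 2) ∨ SP π (η 1) (η 3)
    · have q03 : ¬ SP π (η 0) (η 3) := by
        intro hh
        rcases hB with hA | hA
        · exact h3 2 0 3 (by decide) (by decide) (by decide) ⟨hs _ _ hA, hh⟩
        · exact h3 0 3 1 (by decide) (by decide) (by decide) ⟨hh, hs _ _ hA⟩
      have q12 : ¬ SP π (η 1) (η 2) := by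
        intro hh
        rcases hB with hA | hA
        · exact h3 0 2 1 (by decide) (by decide) (by decide) ⟨hA, hs _ _ hh⟩
        · exact h3 3 1 2 (by decide) (by decide) (by decide) ⟨hs _ _ hA, hh⟩
      refine le_trans (le_of_eq ?_) (le_max_right _ _)
      rw [e01, e23, n03 q03, n12 q12, sum, sum]
      rcases hB with hA | hA
      · have := (m02 hA).1
        rw [this, hPD.symm (η 2) (η 1), add_comm (D (η 1) (η 2))]
        abel
      · have := (m13 hA).1
        rw [this, hPD.symm (η 3) (η 2)]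
        abel
    · push Not at hB
      obtain ⟨q02, q13⟩ := hB
      have e02 := n02 q02
      have e13 := n13 q13
      by_cases hC : SP π (η 0) (η 3) ∨ SP π (η 1) (η 2)
      · refine le_trans (le_of_eq ?_) (le_max_left _ _)
        rw [e01, e23, e02, e13, sum, sum]
        rcases hC with hA | hA
        · have := (m03 hA).1
          rw [this, hPD.symm (η 3) (η 1), hPD.symm (η 3) (η 2), add_comm (D (η 1) (η 3))]
          abel
        · have := (m12 hA).1
          rw [this]
          abel
      · push Not at hC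
        obtain ⟨q03, q12⟩ := hC
        have hh := hPD.hyp (η 0) (η 1) (η 2) (η 3) q01 q02 q03 q12 q13 q23
        rw [e01, e23, e02, e13, n03 q03, n12 q12, sum, sum, sum]
        rcases le_max_iff.1 hh with hh | hh
        · refine le_trans ?_ (le_max_left _ _)
          have e : t 0 + t 2 + t 1 + t 3 = t 0 + t 1 + t 2 + t 3 := by abel
          rw [e]
          exact add_le_add_left (t0_le _ _ hh) _
        · refine le_trans ?_ (le_max_right _ _)
          have e : t 0 + t 3 + t 1 + t 2 = t 0 + t 1 + t 2 + t 3 := by abel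
          rw [e]
          exact add_le_add_left (t0_le _ _ hh) _

end Pool.Agent.LF
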