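import Pool.Agent.Lib.LF.X.Spec1

/-!
# C43, Block X: the action is free
-/

set_option autoImplicit false

namespace Pool.Agent.LF

namespace FrXM

theorem ac_len {E H : Type} [Group H] (bar : E → E) (π : E → H) (nf : E → H → H)
    (κ : E → H → ℤ) (l : List (E × H)) : ∀ h y : H,
      (ac bar π nf κ h l y).1.length = l.length := by
  induction l with
  | nil => intro h y; rfl
  | cons p l ih =>
    intro h y
    show (ac bar π nf κ _ l y).1.length + 1 = l.length + 1
    rw [ih]

theorem lt_of_fst (a b : ℝ ×ₗ ℝ) (h : (ofLex a).1 < (ofLex b).1) : a < b := by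
  rw [Prod.Lex.lt_iff]
  exact Or.inl h

theorem fst_le (a b : ℝ ×ₗ ℝ) (h : a ≤ b) : (ofLex a).1 ≤ (ofLex b).1 := by
  rw [Prod.Lex.le_iff] at h
  rcases h with h | h
  · exact h.le
  · exact h.1.le

theorem fst_add (a b : ℝ ×ₗ ℝ) : (ofLex (a + b)).1 = (ofLex a).1 + (ofLex b).1 := rfl

end FrXM

open FrXM in
theorem xFrX (h1 : DdXStmt) (h2 : LnXStmt) : FrXStmt := by
  intro E H _ bar π lam D nf κ hPD hNF hH Γ _ ι s hs hrel A hAh hAs hev hiso h4 g hg
  obtain ⟨ln1, ln2, ln3, ln4, ln5⟩ := h2 E H bar D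
  obtain ⟨dd1, dd2, dd3, dd4⟩ := h1 E H bar D hPD.symm hPD.self
  let x₀ : XX bar nf := ⟨([], 1), trivial⟩
  have hmul : ∀ (a b : Γ) (x : XX bar nf), A (a * b) x = A a (A b x) := by
    intro a b x
    rw [map_mul]
    rfl
  have hinv : ∀ (a : Γ) (x : XX bar nf), A a (A a⁻¹ x) = x := by
    intro a x
    rw [← hmul, mul_inv_cancel, map_one]
    rfl
  have hex : ∃ n : ℕ, ∃ k : Γ, (ofLex (dX bar D nf (A k x₀) (A g (A k x₀)))).1 = n := by
    obtain ⟨n, hn⟩ := ln5 (A 1 x₀).1.1 (A 1 x₀).1.2 (A g (A 1 x₀)).1.1 (A g (A 1 x₀)).1.2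
    exact ⟨n, 1, hn⟩
  classical
  obtain ⟨k, hk⟩ := Nat.find_spec hex
  have hmin : ∀ k' : Γ, (Nat.find hex : ℝ) ≤
      (ofLex (dX bar D nf (A k' x₀) (A g (A k' x₀)))).1 := by
    intro k'
    obtain ⟨n, hn⟩ := ln5 (A k' x₀).1.1 (A k' x₀).1.2 (A g (A k' x₀)).1.1 (A g (A k' x₀)).1.2
    have h5 : (ofLex (dX bar D nf (A k' x₀) (A g (A k' x₀)))).1 = n := hn
    have h6 := Nat.find_min' hex ⟨k', h5⟩
    rw [h5]
    exact_mod_cast h6
  set n := Nat.find hex with hndef
  set g' := k⁻¹ * g * k with hg'
  have hg'1 : g' ≠ 1 := by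
    intro hh
    apply hg
    have : g = k * g' * k⁻¹ := by rw [hg']; group
    rw [this, hh]
    group
  have hkg : k * g' = g * k := by rw [hg']; group
  have htr : ∀ x : XX bar nf, A g (A k x) = A k (A g' x) := by
    intro x
    rw [← hmul, ← hmul, hkg]
  have htr1 : ∀ x : XX bar nf, dX bar D nf (A k x) (A g (A k x)) = dX bar D nf x (A g' x) := by
    intro x
    rw [htr, hiso]
  have htr2 : ∀ x : XX bar nf,
      dX bar D nf (A k x) (A g (A g (A k x))) = dX bar D nf x (A g' (A g' x)) := by
    intro x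
    rw [htr, htr, hiso]
  set u := A g' x₀ with hu
  set v := A g'⁻¹ x₀ with hv
  have hA0 : ∀ w : XX bar nf, (ofLex (dX bar D nf x₀ w)).1 = w.1.1.length := by
    intro w
    have h5 := ln3 [] 1 w.1.1 w.1.2 (fun p hp => by simp at hp)
    rw [List.length_nil, Nat.cast_zero, zero_add] at h5
    exact h5
  have hdu : (ofLex (dX bar D nf x₀ u)).1 = n := by
    rw [← hk, htr1]
  have hlu : u.1.1.length = n := by
    have := hA0 u
    rw [hdu] at this
    exact_mod_cast this.symm
  have hdv : dX bar D nf x₀ v = dX bar D nf x₀ u := by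
    rw [← hiso g' x₀ v, hv, hinv]
    exact dd4 _ _ _ _
  have hlv : v.1.1.length = n := by
    have := hA0 v
    rw [hdv, hdu] at this
    exact_mod_cast this.symm
  have hvu : dX bar D nf x₀ (A g' (A g' x₀)) = dX bar D nf v u := by
    rw [← hiso g' v u, hv, hinv]
  have hev0 : ev ι s x₀.1.1 x₀.1.2 = 1 := map_one ι
  have hevu := hev g' x₀
  have hevv := hev g'⁻¹ x₀
  rw [hev0, mul_one] at hevu hevv
  rcases Nat.eq_zero_or_pos n with hn0 | hn0
  · -- n = 0
    have e1 : u.1.1 = [] := by
      apply List.length_eq_zero_iff.1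
      rw [hlu, hn0]
    have e2 : g' = ι u.1.2 := by
      rw [← hevu, ← hu, e1]
      rfl
    have e3 : u.1.2 ≠ 1 := by
      intro hh
      apply hg'1
      rw [e2, hh, map_one]
    obtain ⟨x, hx⟩ := hH _ e3
    refine ⟨A k ⟨([], x), trivial⟩, ?_⟩
    rw [htr1, htr2]
    have e4 : ∀ (h y : H), A (ι h) (⟨([], y), trivial⟩ : XX bar nf) = ⟨([], h * y), trivial⟩ := by
      intro h y
      apply Subtype.ext
      rw [hAh]
      rfl
    rw [e2, e4, e4]
    show (toLex (0, D (.inl x) (.inl (u.1.2 * x))) + 0 : ℝ ×ₗ ℝ) <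
      toLex (0, D (.inl x) (.inl (u.1.2 * (u.1.2 * x)))) + 0
    rw [add_zero, add_zero, Prod.Lex.lt_iff]
    exact Or.inr ⟨rfl, hx⟩
  · by_cases hag : ∀ p, v.1.1.head? = some p → u.1.1.head? = some p → False
    · refine ⟨A k x₀, ?_⟩
      rw [htr1, htr2, hvu]
      apply lt_of_fst
      have e1 : (ofLex (dX bar D nf v u)).1 = _ := ln3 v.1.1 v.1.2 u.1.1 u.1.2 hag
      rw [e1, hlv, hlu, hdu]
      have : (0 : ℝ) < n := by exact_mod_cast hn0
      linarith
    · exfalso
      push Not at hag
      obtain ⟨p, hpv, hpu, -⟩ := hag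
      obtain ⟨e, a⟩ := p
      obtain ⟨m, hm⟩ : ∃ m, u.1.1 = (e, a) :: m := List.head?_eq_some_iff.1 hpu
      obtain ⟨m', hm'⟩ : ∃ m', v.1.1 = (e, a) :: m' := List.head?_eq_some_iff.1 hpv
      have hnf : nf e a = a := by
        have := u.2
        rw [hm] at this
        exact this.1
      have hne : (e, a) ∉ ([] : List (E × H)) := by simp
      set x₁ := A (ι a * s e) x₀ with hx₁
      have hs0 : (A (s e) x₀).1 = ([(e, 1)], 1) := by
        rw [hAs]
        rfl
      have hl1 : x₁.1.1 = [(e, a)] := by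
        rw [hx₁, hmul, hAh, hs0]
        show [(e, nf e (a * 1))] = [(e, a)]
        rw [mul_one, hnf]
      have hmin1 := hmin (k * (ι a * s e))
      rw [hmul, htr1] at hmin1
      have hfour := fst_le _ _ (h4 x₀ u x₁ (A g' x₁))
      have e1 : dX bar D nf u (A g' x₁) = dX bar D nf x₀ x₁ := hiso g' x₀ x₁
      have e2 : dX bar D nf x₀ (A g' x₁) = dX bar D nf v x₁ := by
        rw [← hiso g' v x₁, hv, hinv]
      rw [e1, e2] at hfour
      have e3 : (ofLex (dX bar D nf x₀ x₁)).1 = 1 := by
        rw [hA0, hl1]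
        simp
      have e4 : (ofLex (dX bar D nf v x₁)).1 ≤ (n : ℝ) - 1 := by
        have := ln4 (e, a) m' v.1.2 [] x₁.1.2
        rw [← hm', ← hl1] at this
        have e5 : (m'.length : ℝ) + 1 = n := by
          have : m'.length + 1 = n := by
            rw [← hlv, hm']
            rfl
          exact_mod_cast this
        simp only [List.length_nil, Nat.cast_zero] at this
        have e6 : (ofLex (dX bar D nf v x₁)).1 ≤ (m'.length : ℝ) + 0 := this
        linarith
      have e4' : (ofLex (dX bar D nf u x₁)).1 ≤ (n : ℝ) - 1 := by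
        have := ln4 (e, a) m u.1.2 [] x₁.1.2
        rw [← hm, ← hl1] at this
        have e5 : (m.length : ℝ) + 1 = n := by
          have : m.length + 1 = n := by
            rw [← hlu, hm]
            rfl
          exact_mod_cast this
        simp only [List.length_nil, Nat.cast_zero] at this
        have e6 : (ofLex (dX bar D nf u x₁)).1 ≤ (m.length : ℝ) + 0 := this
        linarith
      have hn1 : (n : ℝ) ≤ 1 := by
        have hmx : (ofLex (max (dX bar D nf x₀ x₁ + dX bar D nf x₀ x₁)
            (dX bar D nf v x₁ + dX bar D nf u x₁))).1 ≤ max 2 (2 * (n : ℝ) - 2) := by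
          rcases max_choice (dX bar D nf x₀ x₁ + dX bar D nf x₀ x₁)
            (dX bar D nf v x₁ + dX bar D nf u x₁) with hc | hc
          · rw [hc, fst_add, e3]
            exact le_trans (by norm_num) (le_max_left _ _)
          · rw [hc, fst_add]
            exact le_trans (by linarith) (le_max_right _ _)
        rw [fst_add, hdu] at hfour
        have := le_trans hfour hmx
        rcases le_max_iff.1 this with h7 | h7
        · linarith
        · linarith
      have hn1' : n = 1 := by
        have : n ≤ 1 := by exact_mod_cast hn1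
        omega
      have hm0 : m = [] := by
        apply List.length_eq_zero_iff.1
        have : m.length + 1 = n := by
          rw [← hlu, hm]
          rfl
        omega
      have hm0' : m' = [] := by
        apply List.length_eq_zero_iff.1
        have : m'.length + 1 = n := by
          rw [← hlv, hm']
          rfl
        omega
      have eg : g' = ι a * s e * ι u.1.2 := by
        rw [← hevu, ← hu, hm, hm0]
        rfl
      have h8 : A g' v = x₀ := hinv g' x₀
      rw [eg, hmul, hmul] at h8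
      have h9 := congrArg (fun w : XX bar nf => w.1.1.length) h8
      have h9' : (A (ι a) (A (s e) (A (ι u.1.2) v))).1.1.length = x₀.1.1.length := h9
      rw [hAh, ac_len, hAs] at h9'
      have h10 : (A (ι u.1.2) v).1.1 = [(e, nf e (u.1.2 * a))] := by
        rw [hAh, hm', hm0']
        rfl
      have h11 : sac bar e (A (ι u.1.2) v).1.1 = [(e, 1), (e, nf e (u.1.2 * a))] := by
        rw [h10]
        exact if_neg fun hh => hPD.bar_ne e (congrArg Prod.fst hh).symm
      have h12 : (sac bar e (A (ι u.1.2) v).1.1).length = x₀.1.1.length := h9'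
      rw [h11] at h12
      simp [x₀] at h12

end Pool.Agent.LF
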