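import Pool.Agent.Lib.LF.X.Spec1

set_option autoImplicit false

namespace Pool.Agent.LF

theorem xGnX (hEv : EvXStmt) (hIh : IhXStmt) (hIs : IsXStmt) : GnXStmt := by
  intro E H _ bar π lam D nf κ hPD hN Γ _ ι s hs hr hcl A hA1 hA2
  obtain ⟨hE1, hE2⟩ := hEv E H bar π nf κ hN Γ ι s hs hr
  have key : ∀ g : Γ, (∀ x : XX bar nf, ev ι s (A g x).1.1 (A g x).1.2 = g * ev ι s x.1.1 x.1.2) ∧
      ∀ x y : XX bar nf, dX bar D nf (A g x) (A g y) = dX bar D nf x y := by
    intro g
    have hg : g ∈ Subgroup.closure (Set.range ι ∪ Set.range s) := by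
      rw [hcl]
      exact Subgroup.mem_top g
    induction hg using Subgroup.closure_induction with
    | mem g hg =>
      rcases hg with ⟨h, rfl⟩ | ⟨e, rfl⟩
      · refine ⟨fun x => ?_, fun x y => ?_⟩
        · rw [hA1]
          exact hE1 x.1.1 h x.1.2
        · unfold dX
          rw [hA1, hA1]
          exact hIh E H bar π lam D nf κ hPD hN x.1.1 h x.1.2 y.1.1 y.1.2 x.2 y.2
      · refine ⟨fun x => ?_, fun x y => ?_⟩
        · rw [hA2]
          exact hE2 e x.1.1 x.1.2
        · unfold dX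
          rw [hA2, hA2]
          exact hIs E H bar D nf hPD.bar_bar hPD.symm hPD.self e x.1.1 x.1.2 y.1.1 y.1.2 x.2 y.2
    | one =>
      refine ⟨fun x => ?_, fun x y => ?_⟩
      · rw [map_one, one_mul]
        rfl
      · rw [map_one]
        rfl
    | mul g h _ _ ihg ihh =>
      refine ⟨fun x => ?_, fun x y => ?_⟩
      · rw [map_mul, Equiv.Perm.mul_apply, ihg.1, ihh.1, mul_assoc]
      · rw [map_mul, Equiv.Perm.mul_apply, Equiv.Perm.mul_apply, ihg.2, ihh.2]
    | inv g _ ih =>
      have hc : ∀ x : XX bar nf, A g (A g⁻¹ x) = x := by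
        intro x
        rw [← Equiv.Perm.mul_apply, ← map_mul, mul_inv_cancel, map_one]
        rfl
      refine ⟨fun x => ?_, fun x y => ?_⟩
      · have h1 := ih.1 (A g⁻¹ x)
        rw [hc] at h1
        rw [h1, inv_mul_cancel_left]
      · have h1 := ih.2 (A g⁻¹ x) (A g⁻¹ y)
        rw [hc, hc] at h1
        exact h1.symm
  exact ⟨fun g => (key g).1, fun g => (key g).2⟩

end Pool.Agent.LF
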