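import Pool.Agent.Lib.LF.X.Spec1

set_option autoImplicit false

namespace Pool.Agent.LF

theorem xHdX : HdXStmt := by
  intro E H _ bar π nf κ hN
  have h1 : ∀ p p' : E × H, nf p.1 p.2 = p.2 → nf p'.1 p'.2 = p'.2 → SP π (.inr p) (.inr p') →
      p = p' := by
    rintro ⟨e, g⟩ ⟨e', g'⟩ hp hp' h
    simp only [SP] at h hp hp'
    obtain ⟨he, hg⟩ := h
    subst he
    obtain ⟨m, hm⟩ := Subgroup.mem_zpowers_iff.mp hg
    have hg' : g' = g * π e ^ m := by rw [hm]; group
    have h2 := hN.mul e g m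
    rw [← hg', hp, hp'] at h2
    rw [h2]
  refine ⟨h1, ?_⟩
  intro p l y hR h
  cases l with
  | nil => simp [hd, SP] at h
  | cons q l =>
    simp only [hd] at h
    simp only [Rd] at hR
    have := h1 (bar p.1, 1) q (hN.one _) hR.2.2.1 h
    apply hR.2.1
    simp [this]

end Pool.Agent.LF
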