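import Pool.Agent.Lib.LF.X.Spec1

/-!
# C43, Block X: left multiplication is an isometry
-/

set_option autoImplicit false

namespace Pool.Agent.LF

namespace IhXM

theorem hd_some {E H : Type} (l : List (E × H)) (y : H) (p : E × H) (h : l.head? = some p) :
    hd l y = .inr p := by
  cases l with
  | nil => simp at h
  | cons q m =>
    simp only [List.head?_cons, Option.some.injEq] at h
    rw [← h]
    rfl

theorem sp_refl {E H : Type} [Group H] (π : E → H) (p : E × H) :
    SP π (.inr p) (.inr p) := by
  refine ⟨rfl, ?_⟩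
  rw [inv_mul_cancel]
  exact Subgroup.one_mem _

theorem sp_hd {E H : Type} [Group H] {π : E → H} {bar : E → E} {nf : E → H → H}
    (hp : ∀ p p' : E × H, nf p.1 p.2 = p.2 → nf p'.1 p'.2 = p'.2 → SP π (.inr p) (.inr p') →
      p = p') (l : List (E × H)) (y : H) (l' : List (E × H)) (y' : H) (hl : Rd bar nf l)
    (hl' : Rd bar nf l') (hne : ∀ p, l.head? = some p → l'.head? = some p → False) :
    ¬ SP π (hd l y) (hd l' y') := by
  intro hsp
  cases l with
  | nil => exact hsp
  | cons p m =>
    cases l' with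
    | nil => exact hsp
    | cons p' m' =>
      have := hp p p' hl.1 hl'.1 hsp
      subst this
      exact hne p rfl rfl

end IhXM

open IhXM in
theorem xIhX (h1 : ShXStmt) (h2 : HdXStmt) (h3 : TlXStmt) (h4 : DdXStmt) : IhXStmt := by
  intro E H _ bar π lam D nf κ hPD hNF
  obtain ⟨sh, sys, sts, slm, ssh⟩ := h1 E H bar π lam D hPD
  obtain ⟨hd1, hd2⟩ := h2 E H bar π nf κ hNF
  have htl := h3 E H bar π lam D nf κ hPD hNF
  obtain ⟨dd1, dd2, dd3, dd4⟩ := h4 E H bar D hPD.symm hPD.self
  have nh : ∀ (l : List (E × H)) (h y : H) (z : GP E H),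
      SP π (hd (ac bar π nf κ h l y).1 (ac bar π nf κ h l y).2) z ↔ SP π (lm h (hd l y)) z := by
    intro l h y z
    cases l with
    | nil => exact Iff.rfl
    | cons p m =>
      obtain ⟨e, g⟩ := p
      show SP π (.inr (e, nf e (h * g))) z ↔ SP π (.inr (e, h * g)) z
      have e2 := ssh e (nf e (h * g)) (κ e (h * g))
      rw [hNF.eq] at e2
      exact ⟨fun hh => sts _ _ _ (sys _ _ e2) hh, fun hh => sts _ _ _ e2 hh⟩
  have key : ∀ (l : List (E × H)) (h y : H) (l' : List (E × H)) (y' : H), Rd bar nf l →
      Rd bar nf l' → (∀ p, l.head? = some p → l'.head? = some p → False) →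
      dd bar D (ac bar π nf κ h l y).1 (ac bar π nf κ h l y).2
        (ac bar π nf κ h l' y').1 (ac bar π nf κ h l' y').2 = dd bar D l y l' y' := by
    intro l h y l' y' hl hl' hne
    have n1 : ¬ SP π (hd l y) (hd l' y') := sp_hd hd1 l y l' y' hl hl' hne
    have n2 : ¬ SP π (lm h (hd l' y')) (lm h (hd l y)) := by
      intro hh
      exact n1 (sys _ _ ((slm h _ _).1 hh))
    have n3 : ¬ SP π (lm h (hd l y)) (hd (ac bar π nf κ h l' y').1 (ac bar π nf κ h l' y').2) := by
      intro hh
      exact n2 ((nh l' h y' _).1 (sys _ _ hh))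
    have n4 : ∀ p, (ac bar π nf κ h l y).1.head? = some p →
        (ac bar π nf κ h l' y').1.head? = some p → False := by
      intro p hp hp'
      apply n3
      rw [← nh l h y, hd_some _ _ p hp, hd_some _ _ p hp']
      exact sp_refl π p
    rw [dd2 _ _ _ _ n4, dd2 _ _ _ _ hne]
    have e1 := htl l h y hl _ n3
    have e2 := htl l' h y' hl' _ n2
    rw [hPD.symm (lm h (hd l' y')) (lm h (hd l y)), hPD.inv] at e2
    rw [← add_assoc, e1, add_assoc, add_comm (tl bar D l y), ← add_assoc,
      hPD.symm (lm h (hd l y)), e2, add_assoc, add_comm (tl bar D l' y')]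
  intro l
  induction l with
  | nil =>
    intro h y l' y' hl hl'
    exact key [] h y l' y' hl hl' (fun p hp => by simp at hp)
  | cons p m ih =>
    intro h y l' y' hl hl'
    cases l' with
    | nil => exact key _ h y _ y' hl hl' (fun p hp hp' => by simp at hp')
    | cons p' m' =>
      by_cases hpp : p = p'
      · subst hpp
        obtain ⟨e, g⟩ := p
        rw [dd1]
        show dd bar D ((e, nf e (h * g)) :: _) _ ((e, nf e (h * g)) :: _) _ = _
        rw [dd1]
        exact ih _ y m' y' hl.2.2 hl'.2.2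
      · refine key _ h y _ y' hl hl' (fun q hq hq' => ?_)
        simp only [List.head?_cons, Option.some.injEq] at hq hq'
        exact hpp (hq.trans hq'.symm)

end Pool.Agent.LF
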