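import Pool.Agent.Lib.LF.X.Spec1

set_option autoImplicit false

namespace Pool.Agent.LF

namespace IsXM

theorem swap (a b : ℝ) (T T' : ℝ ×ₗ ℝ) :
    toLex (0, a) + (T + (toLex (1, b) + T')) = toLex (0, b) + ((toLex (1, a) + T) + T') := by
  have h : (toLex (0, a) : ℝ ×ₗ ℝ) + toLex (1, b) = toLex (0, b) + toLex (1, a) := by
    show toLex ((0 : ℝ) + 1, a + b) = toLex ((0 : ℝ) + 1, b + a)
    rw [add_comm a b]
  calc toLex (0, a) + (T + (toLex (1, b) + T'))
      = (toLex (0, a) + toLex (1, b)) + (T + T') := by abel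
    _ = (toLex (0, b) + toLex (1, a)) + (T + T') := by rw [h]
    _ = toLex (0, b) + ((toLex (1, a) + T) + T') := by abel

theorem sac_push {E H : Type} [Group H] (bar : E → E) (e : E) (L : List (E × H))
    (h : L.head? ≠ some (bar e, 1)) : sac bar e L = (e, 1) :: L := by
  cases L with
  | nil => rfl
  | cons q L =>
    rw [sac, if_neg]
    intro hq
    exact h (by rw [hq]; rfl)

theorem sac_pop {E H : Type} [Group H] (bar : E → E) (e : E) (L : List (E × H)) :
    sac bar e ((bar e, 1) :: L) = L := by
  rw [sac, if_pos rfl]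

theorem head_cases {A : Type} (L : List A) (a : A) :
    L.head? ≠ some a ∨ ∃ M, L = a :: M := by
  cases L with
  | nil => left; simp
  | cons q L =>
    by_cases h : q = a
    · right; exact ⟨L, by rw [h]⟩
    · left; simpa using h

end IsXM

open IsXM

theorem xIsX (hDd : DdXStmt) : IsXStmt := by
  intro E H _ bar D nf hbb hsym hself
  obtain ⟨d1, d2, _, d4⟩ := hDd E H bar D hsym hself
  have key : ∀ (e : E) (m : List (E × H)) (y : H) (l' : List (E × H)) (y' : H),
      Rd bar nf ((bar e, 1) :: m) → l'.head? ≠ some (bar e, 1) →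
      dd bar D (sac bar e ((bar e, 1) :: m)) y (sac bar e l') y' =
        dd bar D ((bar e, 1) :: m) y l' y' := by
    intro e m y l' y' hR hl'
    rw [sac_pop, sac_push bar e l' hl']
    rw [Rd] at hR
    have hm : m.head? ≠ some (e, 1) := by
      have := hR.2.1
      simpa [hbb] using this
    rw [d2 m y ((e, 1) :: l') y' (by
        intro p h1 h2
        apply hm
        rw [h1]
        simpa using h2.symm),
      d2 ((bar e, 1) :: m) y l' y' (by
        intro p h1 h2
        apply hl'
        rw [h2]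
        simpa using h1.symm)]
    rw [tl.eq_2 bar D y' (e, 1) l', tl.eq_2 bar D y (bar e, 1) m]
    show toLex (0, D (hd m y) (.inr (e, 1))) + (tl bar D m y +
        (toLex (1, D (.inr (bar e, 1)) (hd l' y')) + tl bar D l' y')) =
      toLex (0, D (.inr (bar e, 1)) (hd l' y')) +
        ((toLex (1, D (.inr (bar (bar e), 1)) (hd m y)) + tl bar D m y) + tl bar D l' y')
    rw [hbb, hsym (hd m y) (.inr (e, 1))]
    exact swap _ _ _ _
  intro e l y l' y' hR hR'
  rcases head_cases l (bar e, (1 : H)) with hl | ⟨m, rfl⟩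
  · rcases head_cases l' (bar e, (1 : H)) with hl' | ⟨m', rfl⟩
    · rw [sac_push bar e l hl, sac_push bar e l' hl', d1]
    · rw [d4, key e m' y' l y hR' hl, d4]
  · rcases head_cases l' (bar e, (1 : H)) with hl' | ⟨m', rfl⟩
    · exact key e m y l' y' hR hl'
    · rw [sac_pop, sac_pop, d1]

end Pool.Agent.LF
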