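import Pool.Agent.Lib.LF.X.Spec1

set_option autoImplicit false

namespace Pool.Agent.LF

namespace LnXM

theorem fst_add (a b : ℝ ×ₗ ℝ) : (ofLex (a + b)).1 = (ofLex a).1 + (ofLex b).1 := rfl

theorem fst_toLex (a b : ℝ) : (ofLex (toLex (a, b) : ℝ ×ₗ ℝ)).1 = a := rfl

end LnXM

open LnXM

theorem xLnX : LnXStmt := by
  intro E H _ bar D
  have h1 : ∀ (l : List (E × H)) (y : H), (ofLex (tl bar D l y)).1 = l.length := by
    intro l y
    induction l with
    | nil => simp [tl]
    | cons p l ih =>
      rw [tl, fst_add, fst_toLex, ih, List.length_cons]
      push_cast
      ring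
  have h2 : ∀ (l : List (E × H)) (y : H) (l' : List (E × H)) (y' : H),
      (ofLex (dd bar D l y l' y')).1 ≤ l.length + l'.length := by
    intro l
    induction l with
    | nil =>
      intro y l' y'
      rw [dd, fst_add, fst_toLex, h1]
      simp
    | cons p l ih =>
      intro y l' y'
      cases l' with
      | nil =>
        rw [dd, fst_add, fst_toLex, h1]
        simp
      | cons p' l' =>
        rw [dd]
        split_ifs
        · refine le_trans (ih y l' y') ?_
          simp only [List.length_cons]
          push_cast
          linarith
        · rw [fst_add, fst_toLex, fst_add, h1, h1]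
          linarith
  have h3 : ∀ (l : List (E × H)) (y : H) (l' : List (E × H)) (y' : H),
      (∀ p, l.head? = some p → l'.head? = some p → False) →
      (ofLex (dd bar D l y l' y')).1 = l.length + l'.length := by
    intro l y l' y' h
    cases l with
    | nil =>
      rw [dd, fst_add, fst_toLex, h1]
      simp
    | cons p l =>
      cases l' with
      | nil =>
        rw [dd, fst_add, fst_toLex, h1]
        simp
      | cons p' l' =>
        have hne : p ≠ p' := by
          intro he
          exact h p rfl (by rw [he]; rfl)
        rw [dd, if_neg hne, fst_add, fst_toLex, fst_add, h1, h1]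
        ring
  refine ⟨h1, h2, h3, ?_, ?_⟩
  · intro p l y l' y'
    rw [dd, if_pos rfl]
    exact h2 l y l' y'
  · intro l
    induction l with
    | nil =>
      intro y l' y'
      refine ⟨l'.length, ?_⟩
      rw [dd, fst_add, fst_toLex, h1]
      simp
    | cons p l ih =>
      intro y l' y'
      cases l' with
      | nil =>
        refine ⟨(p :: l).length, ?_⟩
        rw [dd, fst_add, fst_toLex, h1]
        simp
      | cons p' l' =>
        rw [dd]
        split_ifs
        · exact ih y l' y'
        · refine ⟨(p :: l).length + (p' :: l').length, ?_⟩
          rw [fst_add, fst_toLex, fst_add, h1, h1]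
          push_cast
          ring

end Pool.Agent.LF
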