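import Pool.Agent.Lib.LF.X.Spec1

/-!
# C43, Block X: assembly
-/

set_option autoImplicit false

namespace Pool.Agent.LF

/-- Block X. -/
theorem s_X_of (hNf : NfXStmt) (hDd : DdXStmt) (hP4 : P4XStmt) (hAct : ActXStmt) (hGn : GnXStmt)
    (hFr : FrXStmt) : S_X := by
  intro E H _ bar π lam D hPD hH Γ _ ι s hs hrel huniv hcl
  obtain ⟨nf, κ, hNF⟩ := hNf E H bar π lam D hPD
  obtain ⟨A, hAh, hAs⟩ := hAct E H bar π nf κ hPD.bar_bar hNF Γ ι s huniv
  obtain ⟨hev, hiso⟩ := hGn E H bar π lam D nf κ hPD hNF Γ ι s hs hrel hcl A hAh hAs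
  have h4 := hP4 E H bar π lam D nf κ hPD hNF
  obtain ⟨-, -, hself, hsymm⟩ := hDd E H bar D hPD.symm hPD.self
  have hfree := hFr E H bar π lam D nf κ hPD hNF hH Γ ι s hs hrel A hAh hAs hev hiso h4
  refine ⟨fun h h' hh => ?_, XX bar nf, MulAction.compHom _ A, dX bar D nf,
    ⟨⟨([], 1), trivial⟩⟩, fun x => hself _ _, fun x y => hsymm _ _ _ _, h4, hiso, hfree⟩
  let x₀ : XX bar nf := ⟨([], 1), trivial⟩
  have h1 := hAh h x₀
  have h2 := hAh h' x₀
  rw [hh, h2] at h1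
  have h3 : (([], h' * 1) : List (E × H) × H) = ([], h * 1) := h1
  have h5 := congrArg Prod.snd h3
  simpa using h5.symm

end Pool.Agent.LF
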