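import Pool.Agent.Lib.LF.X.Spec1

/-!
# C43, X/MulX: left multiplication is an action (helper82)
-/

set_option autoImplicit false

namespace Pool.Agent.LF

namespace MulXM

variable {E H : Type} [Group H] {bar : E → E} {π : E → H} {nf : E → H → H} {κ : E → H → ℤ}

theorem nf_eq (h : NF π nf κ) (e : E) (x : H) : nf e x = x * π e ^ (-κ e x) := by
  have h1 := h.eq e x
  rw [zpow_neg]
  exact eq_mul_inv_of_mul_eq h1

theorem nf_mul (h : NF π nf κ) (e : E) (g x : H) : nf e (g * nf e x) = nf e (g * x) := by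
  rw [nf_eq h e x, ← mul_assoc, h.mul]

theorem k_mul (h : NF π nf κ) (e : E) (g x : H) :
    κ e (g * nf e x) = κ e (g * x) - κ e x := by
  rw [nf_eq h e x, ← mul_assoc, h.kmul]
  ring

theorem one (h : NF π nf κ) : ∀ (l : List (E × H)) (y : H), Rd bar nf l →
    ac bar π nf κ 1 l y = (l, y) := by
  intro l
  induction l with
  | nil =>
    intro y _
    show ([], 1 * y) = _
    rw [one_mul]
  | cons p l ih =>
    rintro y ⟨h1, -, h3⟩
    obtain ⟨e, g⟩ := p
    have h2 : nf e g = g := h1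
    have h4 : κ e g = 0 := by
      have h5 := h.eq e g
      rw [h2] at h5
      have h6 := h.kmul e g (κ e g)
      rw [h5] at h6
      omega
    show ((e, nf e (1 * g)) :: (ac bar π nf κ (π (bar e) ^ (-κ e (1 * g))) l y).1,
      (ac bar π nf κ (π (bar e) ^ (-κ e (1 * g))) l y).2) = _
    rw [one_mul, h2, h4, neg_zero, zpow_zero, ih y h3]

theorem mul (h : NF π nf κ) : ∀ (l : List (E × H)) (g g' y : H),
    ac bar π nf κ (g * g') l y =
      ac bar π nf κ g (ac bar π nf κ g' l y).1 (ac bar π nf κ g' l y).2 := by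
  intro l
  induction l with
  | nil =>
    intro g g' y
    show ([], g * g' * y) = ([], g * (g' * y))
    rw [mul_assoc]
  | cons p l ih =>
    intro g g' y
    obtain ⟨e, x⟩ := p
    show ((e, nf e (g * g' * x)) :: (ac bar π nf κ (π (bar e) ^ (-κ e (g * g' * x))) l y).1,
      (ac bar π nf κ (π (bar e) ^ (-κ e (g * g' * x))) l y).2) =
      ((e, nf e (g * nf e (g' * x))) :: (ac bar π nf κ (π (bar e) ^ (-κ e (g * nf e (g' * x))))
        (ac bar π nf κ (π (bar e) ^ (-κ e (g' * x))) l y).1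
        (ac bar π nf κ (π (bar e) ^ (-κ e (g' * x))) l y).2).1,
      (ac bar π nf κ (π (bar e) ^ (-κ e (g * nf e (g' * x))))
        (ac bar π nf κ (π (bar e) ^ (-κ e (g' * x))) l y).1
        (ac bar π nf κ (π (bar e) ^ (-κ e (g' * x))) l y).2).2)
    rw [← ih, ← zpow_add, nf_mul h, k_mul h, ← mul_assoc]
    have h1 : -(κ e (g * g' * x) - κ e (g' * x)) + -κ e (g' * x) = -κ e (g * g' * x) := by ring
    rw [h1]

end MulXM

/-- **MulX.** -/
theorem xMulX : MulXStmt := by
  intro E H _ bar π nf κ h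
  exact ⟨MulXM.one h, MulXM.mul h⟩

end Pool.Agent.LF
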