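import Pool.Agent.Lib.LF.X.Spec1

/-!
# C43, X/NfX: representatives of the cosets (helper82)
-/

set_option autoImplicit false

namespace Pool.Agent.LF

namespace NfXM

theorem shift {E H : Type} [Group H] {bar : E → E} {π : E → H} {lam : E → ℝ}
    {D : GP E H → GP E H → ℝ} (h : PD E H bar π lam D) (e : E) (g : H) (n : ℕ) :
    D (.inr (e, g * π e ^ n)) (.inl 1) = D (.inr (e, g)) (.inl 1) + n * lam e := by
  induction n with
  | zero => simp
  | succ n ih =>
    have h1 := h.shift e (g * π e ^ n) (.inl 1) (fun h' => h')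
    rw [pow_succ, ← mul_assoc, h1, ih]
    push_cast
    ring

theorem pow_ne {E H : Type} [Group H] {bar : E → E} {π : E → H} {lam : E → ℝ}
    {D : GP E H → GP E H → ℝ} (h : PD E H bar π lam D) (e : E) (n : ℕ) (hn : π e ^ n = 1) :
    n = 0 := by
  have h1 := shift h e 1 n
  rw [hn, mul_one] at h1
  have h2 : (n : ℝ) * lam e = 0 := by linarith
  rcases mul_eq_zero.1 h2 with h3 | h3
  · exact_mod_cast h3
  · exact absurd h3 (h.lam_pos e).ne'

theorem zpow_inj {E H : Type} [Group H] {bar : E → E} {π : E → H} {lam : E → ℝ}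
    {D : GP E H → GP E H → ℝ} (h : PD E H bar π lam D) (e : E) {a b : ℤ}
    (hab : π e ^ a = π e ^ b) : a = b := by
  have h1 : π e ^ (a - b) = 1 := by rw [zpow_sub, hab, mul_inv_cancel]
  have h2 : π e ^ (a - b).natAbs = 1 := by
    rcases Int.natAbs_eq (a - b) with h3 | h3
    · rw [h3, zpow_natCast] at h1
      exact h1
    · rw [h3, zpow_neg, zpow_natCast, inv_eq_one] at h1
      exact h1
  have h3 := pow_ne h e _ h2
  omega

open Classical in
/-- The representative. -/
noncomputable def rp {E H : Type} [Group H] (π : E → H) (e : E) (g : H) : H :=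
  if g ∈ Subgroup.zpowers (π e) then 1 else Quotient.out (g : H ⧸ Subgroup.zpowers (π e))

theorem rp_spec {E H : Type} [Group H] (π : E → H) (e : E) (g : H) :
    ∃ k : ℤ, rp π e g * π e ^ k = g := by
  unfold rp
  split_ifs with h
  · obtain ⟨k, hk⟩ := Subgroup.mem_zpowers_iff.1 h
    exact ⟨k, by rw [one_mul, hk]⟩
  · have h1 : ((Quotient.out (g : H ⧸ Subgroup.zpowers (π e)) : H) :
        H ⧸ Subgroup.zpowers (π e)) = g := QuotientGroup.out_eq' _
    rw [QuotientGroup.eq] at h1
    obtain ⟨k, hk⟩ := Subgroup.mem_zpowers_iff.1 h1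
    exact ⟨k, by rw [hk, mul_inv_cancel_left]⟩

theorem rp_mul {E H : Type} [Group H] (π : E → H) (e : E) (g : H) (m : ℤ) :
    rp π e (g * π e ^ m) = rp π e g := by
  have hm : π e ^ m ∈ Subgroup.zpowers (π e) := Subgroup.zpow_mem_zpowers _ _
  have h1 : g * π e ^ m ∈ Subgroup.zpowers (π e) ↔ g ∈ Subgroup.zpowers (π e) :=
    Subgroup.mul_mem_cancel_right _ hm
  have h2 : ((g * π e ^ m : H) : H ⧸ Subgroup.zpowers (π e)) = g :=
    QuotientGroup.mk_mul_of_mem g hm
  unfold rp
  rw [h2]
  by_cases h3 : g ∈ Subgroup.zpowers (π e)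
  · rw [if_pos h3, if_pos (h1.2 h3)]
  · rw [if_neg h3, if_neg (fun h4 => h3 (h1.1 h4))]

end NfXM

open NfXM

/-- **NfX.** -/
theorem xNfX : NfXStmt := by
  intro E H _ bar π lam D h
  choose κ hκ using fun (e : E) (g : H) => rp_spec π e g
  refine ⟨rp π, κ, hκ, rp_mul π, ?_, ?_⟩
  · intro e g m
    apply zpow_inj h e
    have h1 := hκ e (g * π e ^ m)
    rw [rp_mul] at h1
    have h2 : g * π e ^ m = rp π e g * (π e ^ κ e g * π e ^ m) := by
      rw [← mul_assoc, hκ e g]
    rw [h2] at h1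
    rw [zpow_add]
    have h3 := mul_left_cancel h1
    rw [← h2] at h3
    exact h3
  · intro e
    unfold rp
    rw [if_pos (one_mem _)]

end Pool.Agent.LF
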