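import Pool.Agent.Lib.LF.X.Spec1

/-!
# C43, Block X: three points and a base point
-/

set_option autoImplicit false

namespace Pool.Agent.LF

namespace P3XM

theorem tadd (a b c d : ℝ) :
    (toLex (a, b) : ℝ ×ₗ ℝ) + toLex (c, d) = toLex (a + c, b + d) := rfl

theorem sp_refl {E H : Type} [Group H] (π : E → H) (p : E × H) :
    SP π (.inr p) (.inr p) := by
  refine ⟨rfl, ?_⟩
  rw [inv_mul_cancel]
  exact Subgroup.one_mem _

theorem hd_some {E H : Type} (l : List (E × H)) (y : H) (p : E × H) (h : l.head? = some p) :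
    hd l y = .inr p := by
  cases l with
  | nil => simp at h
  | cons q m =>
    simp only [List.head?_cons, Option.some.injEq] at h
    rw [← h]
    rfl

/-- equivalent heads -/
theorem sp_hd {E H : Type} [Group H] {π : E → H} {bar : E → E} {nf : E → H → H}
    (hp : ∀ p p' : E × H, nf p.1 p.2 = p.2 → nf p'.1 p'.2 = p'.2 → SP π (.inr p) (.inr p') →
      p = p') (l : List (E × H)) (y : H) (l' : List (E × H)) (y' : H) (hl : Rd bar nf l)
    (hl' : Rd bar nf l') (hsp : SP π (hd l y) (hd l' y')) :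
    ∃ p m m', l = p :: m ∧ l' = p :: m' := by
  cases l with
  | nil => exact hsp.elim
  | cons p m =>
    cases l' with
    | nil => exact hsp.elim
    | cons p' m' =>
      have := hp p p' hl.1 hl'.1 hsp
      subst this
      exact ⟨p, m, m', rfl, rfl⟩

/-- the two cases for a pair of words -/
theorem pair {E H : Type} [Group H] {bar : E → E} {π : E → H} {D : GP E H → GP E H → ℝ}
    {nf : E → H → H}
    (hp : ∀ p p' : E × H, nf p.1 p.2 = p.2 → nf p'.1 p'.2 = p'.2 → SP π (.inr p) (.inr p') →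
      p = p')
    (dd2 : ∀ (l : List (E × H)) (y : H) (l' : List (E × H)) (y' : H),
      (∀ p, l.head? = some p → l'.head? = some p → False) →
      dd bar D l y l' y' =
        toLex (0, D (hd l y) (hd l' y')) + (tl bar D l y + tl bar D l' y'))
    (ln1 : ∀ (l : List (E × H)) (y : H), (ofLex (tl bar D l y)).1 = l.length)
    (ln4 : ∀ (p : E × H) (l : List (E × H)) (y : H) (l' : List (E × H)) (y' : H),
      (ofLex (dd bar D (p :: l) y (p :: l') y')).1 ≤ l.length + l'.length)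
    (l : List (E × H)) (y : H) (l' : List (E × H)) (y' : H) (hl : Rd bar nf l)
    (hl' : Rd bar nf l') :
    (¬ SP π (hd l y) (hd l' y') → dd bar D l y l' y' =
        toLex (0, D (hd l y) (hd l' y')) + (tl bar D l y + tl bar D l' y')) ∧
    (SP π (hd l y) (hd l' y') → hd l y = hd l' y' ∧
      (ofLex (dd bar D l y l' y')).1 < (ofLex (tl bar D l y)).1 + (ofLex (tl bar D l' y')).1) := by
  constructor
  · intro hn
    apply dd2
    intro p h1 h2
    apply hn
    rw [hd_some _ _ p h1, hd_some _ _ p h2]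
    exact sp_refl π p
  · intro hsp
    obtain ⟨p, m, m', rfl, rfl⟩ := sp_hd hp l y l' y' hl hl' hsp
    refine ⟨rfl, ?_⟩
    rw [ln1, ln1]
    have := ln4 p m y m' y'
    simp only [List.length_cons]
    push_cast
    linarith

end P3XM

open P3XM in
theorem xP3X (h1 : ShXStmt) (h2 : HdXStmt) (h3 : DdXStmt) (h4 : LnXStmt) (h5 : FcXStmt) :
    P3XStmt := by
  intro E H _ bar π lam D nf κ hPD hNF
  obtain ⟨sh, sys, sts, slm, ssh⟩ := h1 E H bar π lam D hPD
  obtain ⟨hd1, hd2⟩ := h2 E H bar π nf κ hNF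
  obtain ⟨dd1, dd2, dd3, dd4⟩ := h3 E H bar D hPD.symm hPD.self
  obtain ⟨ln1, -, -, ln4, -⟩ := h4 E H bar D
  have hFc := h5 E H bar π lam D hPD
  have pr := pair (D := D) hd1 dd2 ln1 ln4
  have base : ∀ (l₁ : List (E × H)) (y₁ : H) (l₂ : List (E × H)) (y₂ : H) (l₃ : List (E × H))
      (y₃ : H) (ζ : GP E H), Rd bar nf l₁ → Rd bar nf l₂ → Rd bar nf l₃ → ¬ SP π ζ (hd l₁ y₁) →
      ¬ SP π ζ (hd l₂ y₂) → ¬ SP π ζ (hd l₃ y₃) →
      ¬ (SP π (hd l₁ y₁) (hd l₂ y₂) ∧ SP π (hd l₂ y₂) (hd l₃ y₃)) →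
      dd bar D l₁ y₁ l₂ y₂ + (toLex (0, D ζ (hd l₃ y₃)) + tl bar D l₃ y₃) ≤
        max (dd bar D l₁ y₁ l₃ y₃ + (toLex (0, D ζ (hd l₂ y₂)) + tl bar D l₂ y₂))
          (dd bar D l₂ y₂ l₃ y₃ + (toLex (0, D ζ (hd l₁ y₁)) + tl bar D l₁ y₁)) := by
    intro l₁ y₁ l₂ y₂ l₃ y₃ ζ r1 r2 r3 z1 z2 z3 hnot
    have w1 : ¬ SP π (hd l₁ y₁) ζ := fun hh => z1 (sys _ _ hh)
    have w2 : ¬ SP π (hd l₂ y₂) ζ := fun hh => z2 (sys _ _ hh)
    have w3 : ¬ SP π (hd l₃ y₃) ζ := fun hh => z3 (sys _ _ hh)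
    have ez : ∀ (l : List (E × H)) (y : H), toLex (0, D ζ (hd l y)) + tl bar D l y =
        toLex (0, D (hd l y) ζ) + (tl bar D l y + 0) := by
      intro l y
      rw [add_zero, hPD.symm]
    have ez' : ∀ (l : List (E × H)) (y : H), toLex (0, D ζ (hd l y)) + tl bar D l y =
        toLex (0, D ζ (hd l y)) + (0 + tl bar D l y) := by
      intro l y
      rw [zero_add]
    have key := hFc ![hd l₁ y₁, hd l₂ y₂, hd l₃ y₃, ζ]
      ![tl bar D l₁ y₁, tl bar D l₂ y₂, tl bar D l₃ y₃, 0]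
      ![![dd bar D l₁ y₁ l₁ y₁, dd bar D l₁ y₁ l₂ y₂, dd bar D l₁ y₁ l₃ y₃,
          toLex (0, D ζ (hd l₁ y₁)) + tl bar D l₁ y₁],
        ![dd bar D l₂ y₂ l₁ y₁, dd bar D l₂ y₂ l₂ y₂, dd bar D l₂ y₂ l₃ y₃,
          toLex (0, D ζ (hd l₂ y₂)) + tl bar D l₂ y₂],
        ![dd bar D l₃ y₃ l₁ y₁, dd bar D l₃ y₃ l₂ y₂, dd bar D l₃ y₃ l₃ y₃,
          toLex (0, D ζ (hd l₃ y₃)) + tl bar D l₃ y₃],
        ![toLex (0, D ζ (hd l₁ y₁)) + tl bar D l₁ y₁, toLex (0, D ζ (hd l₂ y₂)) + tl bar D l₂ y₂,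
          toLex (0, D ζ (hd l₃ y₃)) + tl bar D l₃ y₃, 0]]
      (by
        intro i j
        fin_cases i <;> fin_cases j <;> first | rfl | exact dd4 _ _ _ _)
      (fun i j => sys _ _)
      (by
        intro i j hij hn
        fin_cases i <;> fin_cases j
        · exact absurd rfl hij
        · exact (pr _ _ _ _ r1 r2).1 hn
        · exact (pr _ _ _ _ r1 r3).1 hn
        · exact ez _ _
        · exact (pr _ _ _ _ r2 r1).1 hn
        · exact absurd rfl hij
        · exact (pr _ _ _ _ r2 r3).1 hn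
        · exact ez _ _
        · exact (pr _ _ _ _ r3 r1).1 hn
        · exact (pr _ _ _ _ r3 r2).1 hn
        · exact absurd rfl hij
        · exact ez _ _
        · exact ez' _ _
        · exact ez' _ _
        · exact ez' _ _
        · exact absurd rfl hij)
      (by
        intro i j hij hn
        fin_cases i <;> fin_cases j
        · exact absurd rfl hij
        · exact (pr _ _ _ _ r1 r2).2 hn
        · exact (pr _ _ _ _ r1 r3).2 hn
        · exact absurd hn w1
        · exact (pr _ _ _ _ r2 r1).2 hn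
        · exact absurd rfl hij
        · exact (pr _ _ _ _ r2 r3).2 hn
        · exact absurd hn w2
        · exact (pr _ _ _ _ r3 r1).2 hn
        · exact (pr _ _ _ _ r3 r2).2 hn
        · exact absurd rfl hij
        · exact absurd hn w3
        · exact absurd hn z1
        · exact absurd hn z2
        · exact absurd hn z3
        · exact absurd rfl hij)
      (by
        intro i j k hij hjk hik hh
        obtain ⟨s1, s2⟩ := hh
        have z : ∀ i, i ≠ 3 → ¬ SP π ζ ((![hd l₁ y₁, hd l₂ y₂, hd l₃ y₃, ζ] : Fin 4 → GP E H) i) := by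
          intro i hi
          fin_cases i
          · exact z1
          · exact z2
          · exact z3
          · exact absurd rfl hi
        by_cases hi3 : i = 3
        · subst hi3
          exact z j (fun e => hij e.symm) s1
        by_cases hj3 : j = 3
        · subst hj3
          exact z k (fun e => hjk e.symm) s2
        by_cases hk3 : k = 3
        · subst hk3
          exact z j hj3 (sys _ _ s2)
        have hall : ∀ i j k : Fin 4, i ≠ j → j ≠ k → i ≠ k → i ≠ 3 → j ≠ 3 → k ≠ 3 →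
            ∀ a, a ≠ 3 → a = i ∨ a = j ∨ a = k := by decide
        have hS : ∀ a, a ≠ 3 → SP π ((![hd l₁ y₁, hd l₂ y₂, hd l₃ y₃, ζ] : Fin 4 → GP E H) j)
            ((![hd l₁ y₁, hd l₂ y₂, hd l₃ y₃, ζ] : Fin 4 → GP E H) a) := by
          intro a ha
          rcases hall i j k hij hjk hik hi3 hj3 hk3 a ha with e | e | e
          · rw [e]
            exact sys _ _ s1
          · rw [e]
            exact sts _ _ _ s2 (sys _ _ s2)
          · rw [e]
            exact s2
        apply hnot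
        have a0 := hS 0 (by decide)
        have a1 := hS 1 (by decide)
        have a2 := hS 2 (by decide)
        exact ⟨sts _ _ _ (sys _ _ a0) a1, sts _ _ _ (sys _ _ a1) a2⟩)
    have key2 : dd bar D l₁ y₁ l₂ y₂ + (toLex (0, D ζ (hd l₃ y₃)) + tl bar D l₃ y₃) ≤
        max (dd bar D l₁ y₁ l₃ y₃ + (toLex (0, D ζ (hd l₂ y₂)) + tl bar D l₂ y₂))
          ((toLex (0, D ζ (hd l₁ y₁)) + tl bar D l₁ y₁) + dd bar D l₂ y₂ l₃ y₃) := key
    rw [add_comm (toLex (0, D ζ (hd l₁ y₁)) + tl bar D l₁ y₁)] at key2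
    exact key2
  intro l₁
  induction l₁ with
  | nil =>
    intro y₁ l₂ y₂ l₃ y₃ ζ r1 r2 r3 z1 z2 z3
    exact base _ _ _ _ _ _ _ r1 r2 r3 z1 z2 z3 (fun hh => hh.1)
  | cons p m₁ ih =>
    intro y₁ l₂ y₂ l₃ y₃ ζ r1 r2 r3 z1 z2 z3
    by_cases hall : SP π (hd (p :: m₁) y₁) (hd l₂ y₂) ∧ SP π (hd l₂ y₂) (hd l₃ y₃)
    · obtain ⟨p', m, m₂, e1, e2⟩ := sp_hd hd1 _ _ _ _ r1 r2 hall.1
      obtain ⟨p'', m', m₃, e3, e4⟩ := sp_hd hd1 _ _ _ _ r2 r3 hall.2
      have e5 : p = p' := by simpa using congrArg List.head? e1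
      subst e5
      subst e2
      have e6 : p = p'' := by simpa using congrArg List.head? e3
      subst e6
      subst e4
      rw [dd1, dd1, dd1]
      have hI := ih y₁ m₂ y₂ m₃ y₃ (.inr (bar p.1, 1)) r1.2.2 r2.2.2 r3.2.2
        (hd2 p _ _ r1) (hd2 p _ _ r2) (hd2 p _ _ r3)
      have et : ∀ (m : List (E × H)) (y : H), toLex (0, D ζ (hd (p :: m) y)) + tl bar D (p :: m) y =
          toLex (1, D ζ (.inr p)) + (toLex (0, D (.inr (bar p.1, 1)) (hd m y)) + tl bar D m y) := by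
        intro m y
        show toLex (0, D ζ (.inr p)) + (toLex (1, D (.inr (bar p.1, 1)) (hd m y)) + tl bar D m y) = _
        rw [← add_assoc, ← add_assoc, tadd, tadd, zero_add, add_zero]
      rw [et, et, et]
      have ec : ∀ a b c : ℝ ×ₗ ℝ, a + (b + c) = b + (a + c) := by
        intro a b c
        abel
      rw [ec, ec (dd bar D m₁ y₁ m₃ y₃), ec (dd bar D m₂ y₂ m₃ y₃), max_add_add_left]
      exact add_le_add_right hI _
    · exact base _ _ _ _ _ _ _ r1 r2 r3 z1 z2 z3 hall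

end Pool.Agent.LF
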