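import Pool.Agent.Lib.LF.X.Spec1

/-!
# C43, Block X: the four-point inequality
-/

set_option autoImplicit false

namespace Pool.Agent.LF

namespace P4XM

theorem tadd (a b c d : ℝ) :
    (toLex (a, b) : ℝ ×ₗ ℝ) + toLex (c, d) = toLex (a + c, b + d) := rfl

theorem sp_refl {E H : Type} [Group H] (π : E → H) (p : E × H) :
    SP π (.inr p) (.inr p) := by
  refine ⟨rfl, ?_⟩
  rw [inv_mul_cancel]
  exact Subgroup.one_mem _

theorem hd_some {E H : Type} (l : List (E × H)) (y : H) (p : E × H) (h : l.head? = some p) :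
    hd l y = .inr p := by
  cases l with
  | nil => simp at h
  | cons q m =>
    simp only [List.head?_cons, Option.some.injEq] at h
    rw [← h]
    rfl

/-- equivalent heads -/
theorem sp_hd {E H : Type} [Group H] {π : E → H} {bar : E → E} {nf : E → H → H}
    (hp : ∀ p p' : E × H, nf p.1 p.2 = p.2 → nf p'.1 p'.2 = p'.2 → SP π (.inr p) (.inr p') →
      p = p') (l : List (E × H)) (y : H) (l' : List (E × H)) (y' : H) (hl : Rd bar nf l)
    (hl' : Rd bar nf l') (hsp : SP π (hd l y) (hd l' y')) :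
    ∃ p m m', l = p :: m ∧ l' = p :: m' := by
  cases l with
  | nil => exact hsp.elim
  | cons p m =>
    cases l' with
    | nil => exact hsp.elim
    | cons p' m' =>
      have := hp p p' hl.1 hl'.1 hsp
      subst this
      exact ⟨p, m, m', rfl, rfl⟩

/-- the two cases for a pair of words -/
theorem pair {E H : Type} [Group H] {bar : E → E} {π : E → H} {D : GP E H → GP E H → ℝ}
    {nf : E → H → H}
    (hp : ∀ p p' : E × H, nf p.1 p.2 = p.2 → nf p'.1 p'.2 = p'.2 → SP π (.inr p) (.inr p') →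
      p = p')
    (dd2 : ∀ (l : List (E × H)) (y : H) (l' : List (E × H)) (y' : H),
      (∀ p, l.head? = some p → l'.head? = some p → False) →
      dd bar D l y l' y' =
        toLex (0, D (hd l y) (hd l' y')) + (tl bar D l y + tl bar D l' y'))
    (ln1 : ∀ (l : List (E × H)) (y : H), (ofLex (tl bar D l y)).1 = l.length)
    (ln4 : ∀ (p : E × H) (l : List (E × H)) (y : H) (l' : List (E × H)) (y' : H),
      (ofLex (dd bar D (p :: l) y (p :: l') y')).1 ≤ l.length + l'.length)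
    (l : List (E × H)) (y : H) (l' : List (E × H)) (y' : H) (hl : Rd bar nf l)
    (hl' : Rd bar nf l') :
    (¬ SP π (hd l y) (hd l' y') → dd bar D l y l' y' =
        toLex (0, D (hd l y) (hd l' y')) + (tl bar D l y + tl bar D l' y')) ∧
    (SP π (hd l y) (hd l' y') → hd l y = hd l' y' ∧
      (ofLex (dd bar D l y l' y')).1 < (ofLex (tl bar D l y)).1 + (ofLex (tl bar D l' y')).1) := by
  constructor
  · intro hn
    apply dd2
    intro p h1 h2
    apply hn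
    rw [hd_some _ _ p h1, hd_some _ _ p h2]
    exact sp_refl π p
  · intro hsp
    obtain ⟨p, m, m', rfl, rfl⟩ := sp_hd hp l y l' y' hl hl' hsp
    refine ⟨rfl, ?_⟩
    rw [ln1, ln1]
    have := ln4 p m y m' y'
    simp only [List.length_cons]
    push_cast
    linarith

end P4XM

open P4XM in
theorem xP4X (h1 : ShXStmt) (h2 : HdXStmt) (h3 : DdXStmt) (h4 : LnXStmt) (h5 : FcXStmt)
    (h6 : P3XStmt) : P4XStmt := by
  intro E H _ bar π lam D nf κ hPD hNF
  obtain ⟨sh, sys, sts, slm, ssh⟩ := h1 E H bar π lam D hPD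
  obtain ⟨hd1, hd2⟩ := h2 E H bar π nf κ hNF
  obtain ⟨dd1, dd2, dd3, dd4⟩ := h3 E H bar D hPD.symm hPD.self
  obtain ⟨ln1, -, -, ln4, -⟩ := h4 E H bar D
  have hFc := h5 E H bar π lam D hPD
  have hP3 := h6 E H bar π lam D nf κ hPD hNF
  have pr := pair (D := D) hd1 dd2 ln1 ln4
  have three : ∀ (l₁ : List (E × H)) (y₁ : H) (l₂ : List (E × H)) (y₂ : H) (l₃ : List (E × H))
      (y₃ : H) (l : List (E × H)) (y : H), Rd bar nf l₁ → Rd bar nf l₂ → Rd bar nf l₃ →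
      Rd bar nf l → SP π (hd l₁ y₁) (hd l₂ y₂) → SP π (hd l₂ y₂) (hd l₃ y₃) →
      ¬ SP π (hd l₁ y₁) (hd l y) →
      dd bar D l₁ y₁ l₂ y₂ + dd bar D l₃ y₃ l y ≤
        max (dd bar D l₁ y₁ l₃ y₃ + dd bar D l₂ y₂ l y)
          (dd bar D l₂ y₂ l₃ y₃ + dd bar D l₁ y₁ l y) := by
    intro l₁ y₁ l₂ y₂ l₃ y₃ l y r1 r2 r3 r s1 s2 ns
    have ns2 : ¬ SP π (hd l₂ y₂) (hd l y) := fun hh => ns (sts _ _ _ s1 hh)
    have ns3 : ¬ SP π (hd l₃ y₃) (hd l y) := fun hh => ns2 (sts _ _ _ s2 hh)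
    rw [(pr _ _ _ _ r1 r).1 ns, (pr _ _ _ _ r2 r).1 ns2, (pr _ _ _ _ r3 r).1 ns3]
    obtain ⟨p, m₁, m₂, e1, e2⟩ := sp_hd hd1 _ _ _ _ r1 r2 s1
    obtain ⟨p', m', m₃, e3, e4⟩ := sp_hd hd1 _ _ _ _ r2 r3 s2
    subst e1
    subst e2
    have e5 : p = p' := by simpa using congrArg List.head? e3
    subst e5
    subst e4
    rw [dd1, dd1, dd1]
    have hI := hP3 m₁ y₁ m₂ y₂ m₃ y₃ (.inr (bar p.1, 1)) r1.2.2 r2.2.2 r3.2.2
      (hd2 p _ _ r1) (hd2 p _ _ r2) (hd2 p _ _ r3)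
    have et : ∀ (m : List (E × H)) (y' : H),
        toLex (0, D (hd (p :: m) y') (hd l y)) + (tl bar D (p :: m) y' + tl bar D l y) =
          (toLex (1, D (.inr p) (hd l y)) + tl bar D l y) +
            (toLex (0, D (.inr (bar p.1, 1)) (hd m y')) + tl bar D m y') := by
      intro m y'
      show toLex (0, D (.inr p) (hd l y)) +
        ((toLex (1, D (.inr (bar p.1, 1)) (hd m y')) + tl bar D m y') + tl bar D l y) = _
      have e1 : (toLex (0, D (.inr p) (hd l y)) : ℝ ×ₗ ℝ) +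
          toLex (1, D (.inr (bar p.1, 1)) (hd m y')) =
          toLex (1, D (.inr p) (hd l y)) + toLex (0, D (.inr (bar p.1, 1)) (hd m y')) := by
        rw [tadd, tadd, zero_add, add_zero]
      calc _ = ((toLex (0, D (.inr p) (hd l y)) : ℝ ×ₗ ℝ) +
            toLex (1, D (.inr (bar p.1, 1)) (hd m y'))) + (tl bar D m y' + tl bar D l y) := by abel
        _ = _ := by rw [e1]; abel
    rw [et, et, et]
    have ec : ∀ a b c : ℝ ×ₗ ℝ, a + (b + c) = b + (a + c) := by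
      intro a b c
      abel
    rw [ec, ec (dd bar D m₁ y₁ m₃ y₃), ec (dd bar D m₂ y₂ m₃ y₃), max_add_add_left]
    exact add_le_add_right hI _
  have none : ∀ (W : Fin 4 → List (E × H)) (Y : Fin 4 → H), (∀ i, Rd bar nf (W i)) →
      ¬ (SP π (hd (W 0) (Y 0)) (hd (W 1) (Y 1)) ∧ SP π (hd (W 1) (Y 1)) (hd (W 2) (Y 2)) ∧
        SP π (hd (W 2) (Y 2)) (hd (W 3) (Y 3))) →
      dd bar D (W 0) (Y 0) (W 1) (Y 1) + dd bar D (W 2) (Y 2) (W 3) (Y 3) ≤
        max (dd bar D (W 0) (Y 0) (W 2) (Y 2) + dd bar D (W 1) (Y 1) (W 3) (Y 3))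
          (dd bar D (W 0) (Y 0) (W 3) (Y 3) + dd bar D (W 1) (Y 1) (W 2) (Y 2)) := by
    intro W Y hR hnot
    by_cases c1 : SP π (hd (W 0) (Y 0)) (hd (W 1) (Y 1)) ∧ SP π (hd (W 1) (Y 1)) (hd (W 2) (Y 2))
    · have hh := three _ (Y 0) _ (Y 1) _ (Y 2) _ (Y 3) (hR 0) (hR 1) (hR 2) (hR 3) c1.1 c1.2
        (fun h3 => hnot ⟨c1.1, c1.2, sts _ _ _ (sys _ _ c1.2) (sts _ _ _ (sys _ _ c1.1) h3)⟩)
      rw [add_comm (dd bar D (W 1) (Y 1) (W 2) (Y 2))] at hh
      exact hh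
    by_cases c2 : SP π (hd (W 0) (Y 0)) (hd (W 1) (Y 1)) ∧ SP π (hd (W 1) (Y 1)) (hd (W 3) (Y 3))
    · have hh := three _ (Y 0) _ (Y 1) _ (Y 3) _ (Y 2) (hR 0) (hR 1) (hR 3) (hR 2) c2.1 c2.2
        (fun h3 => c1 ⟨c2.1, sts _ _ _ (sys _ _ c2.1) h3⟩)
      rw [dd4 (W 3) (Y 3) (W 2) (Y 2), max_comm,
        add_comm (dd bar D (W 1) (Y 1) (W 3) (Y 3))] at hh
      exact hh
    by_cases c3 : SP π (hd (W 0) (Y 0)) (hd (W 2) (Y 2)) ∧ SP π (hd (W 2) (Y 2)) (hd (W 3) (Y 3))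
    · have hh := three _ (Y 2) _ (Y 3) _ (Y 0) _ (Y 1) (hR 2) (hR 3) (hR 0) (hR 1) c3.2
        (sts _ _ _ (sys _ _ c3.2) (sys _ _ c3.1))
        (fun h3 => c1 ⟨sts _ _ _ c3.1 h3, sys _ _ h3⟩)
      rw [dd4 (W 2) (Y 2) (W 0) (Y 0), dd4 (W 3) (Y 3) (W 1) (Y 1), dd4 (W 3) (Y 3) (W 0) (Y 0),
        dd4 (W 2) (Y 2) (W 1) (Y 1), add_comm (dd bar D (W 2) (Y 2) (W 3) (Y 3))] at hh
      exact hh
    by_cases c4 : SP π (hd (W 1) (Y 1)) (hd (W 2) (Y 2)) ∧ SP π (hd (W 2) (Y 2)) (hd (W 3) (Y 3))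
    · have hh := three _ (Y 2) _ (Y 3) _ (Y 1) _ (Y 0) (hR 2) (hR 3) (hR 1) (hR 0) c4.2
        (sts _ _ _ (sys _ _ c4.2) (sys _ _ c4.1))
        (fun h3 => c1 ⟨sts _ _ _ (sys _ _ h3) (sys _ _ c4.1), c4.1⟩)
      rw [dd4 (W 2) (Y 2) (W 1) (Y 1), dd4 (W 3) (Y 3) (W 1) (Y 1), dd4 (W 3) (Y 3) (W 0) (Y 0),
        dd4 (W 2) (Y 2) (W 0) (Y 0), dd4 (W 1) (Y 1) (W 0) (Y 0),
        add_comm (dd bar D (W 2) (Y 2) (W 3) (Y 3)),
        add_comm (dd bar D (W 1) (Y 1) (W 2) (Y 2)),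
        add_comm (dd bar D (W 1) (Y 1) (W 3) (Y 3)), max_comm] at hh
      exact hh
    refine hFc (fun i => hd (W i) (Y i)) (fun i => tl bar D (W i) (Y i))
      (fun i j => dd bar D (W i) (Y i) (W j) (Y j)) (fun i j => dd4 _ _ _ _)
      (fun i j => sys _ _) (fun i j _ => (pr _ _ _ _ (hR i) (hR j)).1)
      (fun i j _ => (pr _ _ _ _ (hR i) (hR j)).2) ?_
    intro i j k hij hjk hik hh
    obtain ⟨s1, s2⟩ := hh
    have hall : ∀ i j k : Fin 4, i ≠ j → j ≠ k → i ≠ k →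
        ∃ b, ∀ a, a ≠ b → a = i ∨ a = j ∨ a = k := by decide
    obtain ⟨b, hb⟩ := hall i j k hij hjk hik
    have hS : ∀ a, a ≠ b → SP π (hd (W j) (Y j)) (hd (W a) (Y a)) := by
      intro a ha
      rcases hb a ha with e | e | e
      · rw [e]
        exact sys _ _ s1
      · rw [e]
        exact sts _ _ _ s2 (sys _ _ s2)
      · rw [e]
        exact s2
    have hS2 : ∀ a a', a ≠ b → a' ≠ b → SP π (hd (W a) (Y a)) (hd (W a') (Y a')) :=
      fun a a' ha ha' => sts _ _ _ (sys _ _ (hS a ha)) (hS a' ha')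
    fin_cases b
    · exact c4 ⟨hS2 1 2 (by decide) (by decide), hS2 2 3 (by decide) (by decide)⟩
    · exact c3 ⟨hS2 0 2 (by decide) (by decide), hS2 2 3 (by decide) (by decide)⟩
    · exact c2 ⟨hS2 0 1 (by decide) (by decide), hS2 1 3 (by decide) (by decide)⟩
    · exact c1 ⟨hS2 0 1 (by decide) (by decide), hS2 1 2 (by decide) (by decide)⟩
  have main : ∀ (n : ℕ) (W : Fin 4 → List (E × H)) (Y : Fin 4 → H), (∀ i, Rd bar nf (W i)) →
      (W 0).length = n →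
      dd bar D (W 0) (Y 0) (W 1) (Y 1) + dd bar D (W 2) (Y 2) (W 3) (Y 3) ≤
        max (dd bar D (W 0) (Y 0) (W 2) (Y 2) + dd bar D (W 1) (Y 1) (W 3) (Y 3))
          (dd bar D (W 0) (Y 0) (W 3) (Y 3) + dd bar D (W 1) (Y 1) (W 2) (Y 2)) := by
    intro n
    induction n with
    | zero =>
      intro W Y hR hW
      exact none W Y hR (by
        have : W 0 = [] := List.length_eq_zero_iff.1 hW
        intro hh
        rw [this] at hh
        exact hh.1.elim)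
    | succ n ih =>
      intro W Y hR hW
      by_cases hall : SP π (hd (W 0) (Y 0)) (hd (W 1) (Y 1)) ∧
          SP π (hd (W 1) (Y 1)) (hd (W 2) (Y 2)) ∧ SP π (hd (W 2) (Y 2)) (hd (W 3) (Y 3))
      · obtain ⟨p, m₀, m₁, e0, e1⟩ := sp_hd hd1 _ _ _ _ (hR 0) (hR 1) hall.1
        obtain ⟨p', m, m₂, e2, e3⟩ := sp_hd hd1 _ _ _ _ (hR 1) (hR 2) hall.2.1
        obtain ⟨p'', m', m₃, e4, e5⟩ := sp_hd hd1 _ _ _ _ (hR 2) (hR 3) hall.2.2
        have e6 : p = p' := by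
          rw [e1] at e2
          simpa using congrArg List.head? e2
        subst e6
        have e7 : p = p'' := by
          rw [e3] at e4
          simpa using congrArg List.head? e4
        subst e7
        have r0 := hR 0
        have r1 := hR 1
        have r2 := hR 2
        have r3 := hR 3
        rw [e0] at r0 hW
        rw [e1] at r1
        rw [e3] at r2
        rw [e5] at r3
        rw [e0, e1, e3, e5, dd1, dd1, dd1, dd1, dd1, dd1]
        exact ih ![m₀, m₁, m₂, m₃] Y (by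
          intro i
          fin_cases i
          · exact r0.2.2
          · exact r1.2.2
          · exact r2.2.2
          · exact r3.2.2) (by simpa using hW)
      · exact none W Y hR hall
  intro w x y z
  exact main _ ![w.1.1, x.1.1, y.1.1, z.1.1] ![w.1.2, x.1.2, y.1.2, z.1.2] (by
    intro i
    fin_cases i
    · exact w.2
    · exact x.2
    · exact y.2
    · exact z.2) rfl

end Pool.Agent.LF
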