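import Pool.Agent.Lib.LF.X.Spec1

/-!
# C43, X/RdX: left multiplication preserves reduced words (helper82)
-/

set_option autoImplicit false

namespace Pool.Agent.LF

/-- **RdX.** -/
theorem xRdX : RdXStmt := by
  intro E H _ bar π nf κ hN l
  induction l with
  | nil =>
    intro h y _
    refine ⟨trivial, fun e m _ _ h1 => ?_⟩
    have h2 : ([] : List (E × H)).head? = some (e, 1) := h1
    simp at h2
  | cons p l ih =>
    obtain ⟨e, g⟩ := p
    rintro h y ⟨h1, h2, h3⟩
    have h1' : nf e g = g := h1
    have h2' : l.head? ≠ some (bar e, 1) := h2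
    obtain ⟨i1, i2⟩ := ih (π (bar e) ^ (-κ e (h * g))) y h3
    have i3 := i2 (bar e) (-κ e (h * g)) rfl h2'
    constructor
    · refine ⟨?_, i3, i1⟩
      show nf e (nf e (h * g)) = nf e (h * g)
      have h4 : nf e (h * g) = h * g * π e ^ (-κ e (h * g)) := by
        rw [zpow_neg]
        exact eq_mul_inv_of_mul_eq (hN.eq e (h * g))
      conv_lhs => rw [h4]
      exact hN.mul e (h * g) _
    · rintro e' m hm hne h5
      have h6 : some (e, nf e (h * g)) = some (e', 1) := h5
      have h7 := Option.some_injective _ h6
      have h8 : e = e' := congrArg Prod.fst h7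
      have h9 : nf e (h * g) = 1 := congrArg Prod.snd h7
      subst h8
      apply hne
      have h10 := hN.eq e (h * g)
      rw [h9, one_mul] at h10
      have h11 : g = 1 * π e ^ (-m + κ e (h * g)) := by
        rw [one_mul, zpow_add, h10, hm, zpow_neg, inv_mul_cancel_left]
      have h12 : g = 1 := by
        rw [← h1']
        conv_lhs => rw [h11]
        rw [hN.mul, hN.one]
      rw [h12]
      rfl

end Pool.Agent.LF
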