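import Pool.Agent.Lib.LF.X.Spec1

set_option autoImplicit false

namespace Pool.Agent.LF

namespace RelXM

theorem sac_push {E H : Type} [Group H] (bar : E → E) (e : E) (L : List (E × H))
    (h : L.head? ≠ some (bar e, 1)) : sac bar e L = (e, 1) :: L := by
  cases L with
  | nil => rfl
  | cons q L =>
    rw [sac, if_neg]
    intro hq
    exact h (by rw [hq]; rfl)

theorem sac_pop {E H : Type} [Group H] (bar : E → E) (e : E) (L : List (E × H)) :
    sac bar e ((bar e, 1) :: L) = L := by
  rw [sac, if_pos rfl]

theorem head_cases {A : Type} (L : List A) (a : A) :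
    L.head? ≠ some a ∨ ∃ M, L = a :: M := by
  cases L with
  | nil => left; simp
  | cons q L =>
    by_cases h : q = a
    · right; exact ⟨L, by rw [h]⟩
    · left; simpa using h

end RelXM

open RelXM

theorem xRelX (hRd : RdXStmt) : RelXStmt := by
  intro E H _ bar π nf κ hbb hN e l y hR
  have k0 : ∀ e, κ e 1 = 0 := by
    intro e
    have h1 := hN.eq e 1
    rw [hN.one, one_mul] at h1
    have h2 := hN.kmul e 1 (κ e 1)
    rw [h1, mul_one] at h2
    omega
  have kz : ∀ e (m : ℤ), κ e (π e ^ m) = m := by
    intro e m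
    have := hN.kmul e 1 m
    rw [one_mul, k0, zero_add] at this
    exact this
  have nz : ∀ e (m : ℤ), nf e (π e ^ m) = 1 := by
    intro e m
    have := hN.mul e 1 m
    rw [one_mul, hN.one] at this
    exact this
  have k1 : κ e (π e) = 1 := by
    have := kz e 1
    rwa [zpow_one] at this
  have n1 : nf e (π e) = 1 := by
    have := nz e 1
    rwa [zpow_one] at this
  have k2 : κ (bar e) (π (bar e))⁻¹ = -1 := by
    have := kz (bar e) (-1)
    rwa [zpow_neg_one] at this
  have n2 : nf (bar e) (π (bar e))⁻¹ = 1 := by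
    have := nz (bar e) (-1)
    rwa [zpow_neg_one] at this
  rcases head_cases l (bar e, (1 : H)) with hl | ⟨m, rfl⟩
  · have h1 := (hRd E H bar π nf κ hN l (π (bar e))⁻¹ y hR).2 (bar e) (-1)
      (by rw [zpow_neg_one]) hl
    rw [sac_push bar e l hl, sac_push bar e _ h1, ac]
    simp only [mul_one]
    rw [k1, n1, zpow_neg_one]
  · rw [sac_pop, ac.eq_2]
    simp only [mul_one]
    rw [k2, n2, sac_pop, hbb, neg_neg, zpow_one]

end Pool.Agent.LF
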