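import Pool.Agent.Lib.LF.X.Spec1

/-!
# C43, X/SacX: push and pop are inverse to each other (helper82)
-/

set_option autoImplicit false

namespace Pool.Agent.LF

/-- **SacX.** -/
theorem xSacX : SacXStmt := by
  intro E H _ bar nf hb hn e l hl
  have s1 : ∀ (e : E) (q : E × H) (l : List (E × H)), q = (bar e, 1) → sac bar e (q :: l) = l := by
    intro e q l h
    simp only [sac]
    exact if_pos h
  have s2 : ∀ (e : E) (q : E × H) (l : List (E × H)), q ≠ (bar e, 1) →
      sac bar e (q :: l) = (e, 1) :: q :: l := by
    intro e q l h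
    simp only [sac]
    exact if_neg h
  rcases l with _ | ⟨q, l⟩
  · refine ⟨⟨hn e, fun h => by simp at h, trivial⟩, ?_⟩
    show sac bar (bar e) [(e, 1)] = []
    exact s1 _ _ _ (by rw [hb e])
  · by_cases hq : q = (bar e, 1)
    · have h1 : sac bar e (q :: l) = l := s1 _ _ _ hq
      rw [h1]
      refine ⟨hl.2.2, ?_⟩
      have h2 := hl.2.1
      rw [hq] at h2
      rcases l with _ | ⟨q', l'⟩
      · show [(bar e, 1)] = _
        rw [hq]
      · rw [s2, hq]
        intro h3
        apply h2
        rw [h3]
        rfl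
    · have h1 : sac bar e (q :: l) = (e, 1) :: q :: l := s2 _ _ _ hq
      rw [h1]
      refine ⟨⟨hn e, ?_, hl⟩, ?_⟩
      · intro h3
        apply hq
        exact Option.some_injective _ h3
      · exact s1 _ _ _ (by rw [hb e])

end Pool.Agent.LF
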