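import Pool.Agent.Lib.LF.X.Spec1

set_option autoImplicit false

namespace Pool.Agent.LF

namespace ShXM

variable {E H : Type} [Group H] (π : E → H)

theorem sp_symm (z w : GP E H) (h : SP π z w) : SP π w z := by
  rcases z with x | ⟨e, g⟩ <;> rcases w with x' | ⟨e', g'⟩ <;> simp only [SP] at h ⊢
  obtain ⟨he, hg⟩ := h
  subst he
  refine ⟨rfl, ?_⟩
  have := (Subgroup.zpowers (π e)).inv_mem hg
  simpa using this

theorem sp_trans (z w v : GP E H) (h : SP π z w) (h' : SP π w v) : SP π z v := by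
  rcases z with x | ⟨e, g⟩ <;> rcases w with x' | ⟨e', g'⟩ <;> rcases v with x'' | ⟨e'', g''⟩ <;>
    simp only [SP] at h h' ⊢
  obtain ⟨he, hg⟩ := h
  obtain ⟨he', hg'⟩ := h'
  subst he he'
  refine ⟨rfl, ?_⟩
  have := (Subgroup.zpowers (π e)).mul_mem hg hg'
  simpa [mul_assoc] using this

theorem sp_lm (h : H) (z w : GP E H) : SP π (lm h z) (lm h w) ↔ SP π z w := by
  rcases z with x | ⟨e, g⟩ <;> rcases w with x' | ⟨e', g'⟩ <;> simp only [SP, lm]
  have : (h * g)⁻¹ * (h * g') = g⁻¹ * g' := by group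
  rw [this]

theorem sp_pow (e : E) (g : H) (m : ℤ) : SP π (.inr (e, g)) (.inr (e, g * π e ^ m)) := by
  simp only [SP]
  refine ⟨trivial, ?_⟩
  rw [← mul_assoc, inv_mul_cancel, one_mul]
  exact Subgroup.zpow_mem_zpowers _ _

end ShXM

theorem xShX : ShXStmt := by
  intro E H _ bar π lam D hD
  refine ⟨?_, ShXM.sp_symm π, ShXM.sp_trans π, ShXM.sp_lm π, ShXM.sp_pow π⟩
  have hns : ∀ (e : E) (g : H) (m : ℤ) (z : GP E H), ¬ SP π (.inr (e, g)) z →
      ¬ SP π (.inr (e, g * π e ^ m)) z := by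
    intro e g m z h h'
    exact h (ShXM.sp_trans π _ _ _ (ShXM.sp_pow π e g m) h')
  have hnat : ∀ (n : ℕ) (e : E) (g : H) (z : GP E H), ¬ SP π (.inr (e, g)) z →
      D (.inr (e, g * π e ^ n)) z = D (.inr (e, g)) z + n * lam e := by
    intro n
    induction n with
    | zero => intro e g z _; simp
    | succ n ih =>
      intro e g z h
      have h1 := hD.shift e (g * π e ^ n) z (by
        have := hns e g n z h
        simpa using this)
      rw [pow_succ, ← mul_assoc, h1, ih e g z h]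
      push_cast
      ring
  intro e g m z h
  rcases Int.eq_nat_or_neg m with ⟨n, rfl | rfl⟩
  · rw [zpow_natCast, hnat n e g z h]
    push_cast
    ring
  · have h1 := hnat n e (g * π e ^ (-(n : ℤ))) z (hns e g _ z h)
    have h2 : g * π e ^ (-(n : ℤ)) * π e ^ n = g := by
      rw [zpow_neg, zpow_natCast]
      group
    rw [h2] at h1
    push_cast
    linarith

end Pool.Agent.LF
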