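import Pool.Agent.Lib.LF.X.Spec1

/-!
# C43, Block X: the tail of a product
-/

set_option autoImplicit false

namespace Pool.Agent.LF

namespace TlXM

theorem tadd (a b c d : ℝ) :
    (toLex (a, b) : ℝ ×ₗ ℝ) + toLex (c, d) = toLex (a + c, b + d) := rfl

end TlXM

open TlXM in
theorem xTlX (h1 : ShXStmt) (h2 : HdXStmt) : TlXStmt := by
  intro E H _ bar π lam D nf κ hPD hNF l
  obtain ⟨sh, sys, sts, slm, ssh⟩ := h1 E H bar π lam D hPD
  obtain ⟨-, hd2⟩ := h2 E H bar π nf κ hNF
  induction l with
  | nil =>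
    intro h y _ z _
    rfl
  | cons p l ih =>
    obtain ⟨e, g⟩ := p
    intro h y hR z hz
    have hR' : Rd bar nf l := hR.2.2
    have hns : ¬ SP π (.inr (bar e, 1)) (hd l y) := hd2 (e, g) l y hR
    set k := κ e (h * g) with hk
    set c := π (bar e) ^ (-k) with hc
    have hz' : ¬ SP π (.inr (e, h * g)) z := hz
    have hns2 : ¬ SP π (lm c (hd l y)) (.inr (bar e, 1)) := by
      intro hcon
      apply hns
      have e1 : SP π (.inr (bar e, 1)) (lm c (.inr (bar e, 1)) : GP E H) := by
        have := ssh (bar e) 1 (-k)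
        have e2 : (lm c (.inr (bar e, 1)) : GP E H) = .inr (bar e, 1 * π (bar e) ^ (-k)) := by
          show (Sum.inr (bar e, c * 1) : GP E H) = _
          rw [mul_one, one_mul]
        rw [e2]
        exact this
      have e3 := sts _ _ _ hcon e1
      exact (slm c _ _).1 (sys _ _ e3)
    have hih := ih c y hR' (.inr (bar e, 1)) hns2
    have eD1 : D (lm c (hd l y)) (.inr (bar e, 1)) =
        D (.inr (bar e, 1)) (hd l y) + k * lam e := by
      have e1 := hPD.inv c (hd l y) (.inr (bar e, c⁻¹))
      have e2 : (lm c (.inr (bar e, c⁻¹)) : GP E H) = .inr (bar e, 1) := by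
        show (Sum.inr (bar e, c * c⁻¹) : GP E H) = _
        rw [mul_inv_cancel]
      rw [e2] at e1
      rw [e1, hPD.symm]
      have e3 := sh (bar e) 1 k (hd l y) hns
      rw [hPD.lam_bar] at e3
      rw [← e3]
      congr 3
      rw [hc, one_mul, zpow_neg, inv_inv]
    have eD2 : D (.inr (e, h * g)) z = D (.inr (e, nf e (h * g))) z + k * lam e := by
      have e1 : ¬ SP π (.inr (e, nf e (h * g))) z := by
        intro hcon
        apply hz'
        have e2 := ssh e (nf e (h * g)) k
        rw [hNF.eq] at e2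
        exact sts _ _ _ (sys _ _ e2) hcon
      have e3 := sh e (nf e (h * g)) k z e1
      rw [hNF.eq] at e3
      exact e3
    show toLex (0, D (.inr (e, nf e (h * g))) z) +
        (toLex (1, D (.inr (bar e, 1)) (hd (ac bar π nf κ c l y).1 (ac bar π nf κ c l y).2)) +
          tl bar D (ac bar π nf κ c l y).1 (ac bar π nf κ c l y).2) =
      toLex (0, D (.inr (e, h * g)) z) + (toLex (1, D (.inr (bar e, 1)) (hd l y)) + tl bar D l y)
    rw [eD1] at hih
    rw [eD2]
    rw [hPD.symm (.inr (bar e, 1)) (hd (ac bar π nf κ c l y).1 (ac bar π nf κ c l y).2)]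
    generalize D (hd (ac bar π nf κ c l y).1 (ac bar π nf κ c l y).2) (.inr (bar e, 1)) = A at *
    generalize D (.inr (e, nf e (h * g))) z = B at *
    generalize D (.inr (bar e, 1)) (hd l y) = C at *
    have e4 : (toLex (1, A) : ℝ ×ₗ ℝ) = toLex (1, 0) + toLex (0, A) := by
      rw [tadd]; congr 2 <;> ring
    rw [e4, add_assoc, hih, ← add_assoc, ← add_assoc, ← add_assoc, tadd, tadd, tadd]
    congr 3 <;> ring

end Pool.Agent.LF
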