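import Pool.Agent.Lib.LF.X.Main
import Pool.Agent.Lib.LF.X.NfX
import Pool.Agent.Lib.LF.X.RdX
import Pool.Agent.Lib.LF.X.MulX
import Pool.Agent.Lib.LF.X.SacX
import Pool.Agent.Lib.LF.X.RelX
import Pool.Agent.Lib.LF.X.ShX
import Pool.Agent.Lib.LF.X.HdX
import Pool.Agent.Lib.LF.X.TlX
import Pool.Agent.Lib.LF.X.DdX
import Pool.Agent.Lib.LF.X.LnX
import Pool.Agent.Lib.LF.X.IhX
import Pool.Agent.Lib.LF.X.IsX
import Pool.Agent.Lib.LF.X.FcX
import Pool.Agent.Lib.LF.X.P3X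
import Pool.Agent.Lib.LF.X.P4X
import Pool.Agent.Lib.LF.X.ActX
import Pool.Agent.Lib.LF.X.EvX
import Pool.Agent.Lib.LF.X.GnX
import Pool.Agent.Lib.LF.X.FrX

/-!
# C43, Block X: S_X
-/

set_option autoImplicit false

namespace Pool.Agent.LF

theorem zNfX : NfXStmt := xNfX

theorem zRdX : RdXStmt := xRdX

theorem zMulX : MulXStmt := xMulX

theorem zSacX : SacXStmt := xSacX

theorem zRelX : RelXStmt := xRelX zRdX

theorem zShX : ShXStmt := xShX

theorem zHdX : HdXStmt := xHdX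

theorem zTlX : TlXStmt := xTlX zShX zHdX

theorem zDdX : DdXStmt := xDdX

theorem zLnX : LnXStmt := xLnX

theorem zIhX : IhXStmt := xIhX zShX zHdX zTlX zDdX

theorem zIsX : IsXStmt := xIsX zDdX

theorem zFcX : FcXStmt := xFcX

theorem zP3X : P3XStmt := xP3X zShX zHdX zDdX zLnX zFcX

theorem zP4X : P4XStmt := xP4X zShX zHdX zDdX zLnX zFcX zP3X

theorem zActX : ActXStmt := xActX zRdX zMulX zSacX zRelX

theorem zEvX : EvXStmt := xEvX

theorem zGnX : GnXStmt := xGnX zEvX zIhX zIsX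

theorem zFrX : FrXStmt := xFrX zDdX zLnX

/-- Block X. -/
theorem s_X : S_X := s_X_of zNfX zDdX zP4X zActX zGnX zFrX

end Pool.Agent.LF
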