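import Pool.Agent.Lib.LF.Defs

/-!
# C43, Block X: the multiple HNN extension, definitions

Reduced words `(p₁, ..., p_n; y)`: ports `p_i = (e_i, g_i)` (`g_i` the chosen representative of the
coset `g_i ⟨π e_i⟩`) with `p_(i+1) ≠ (bar e_i, 1)`, and a point `y` of `H`.  It stands for
the point `g₁ s(e₁) g₂ s(e₂) ... g_n s(e_n) y`.
-/

set_option autoImplicit false

namespace Pool.Agent.LF

/-- `nf e g` is the chosen representative of the coset `g ⟨π e⟩`, and `g = nf e g * π e ^ κ e g`. -/
structure NF {E H : Type} [Group H] (π : E → H) (nf : E → H → H) (κ : E → H → ℤ) : Prop where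
  eq : ∀ e g, nf e g * π e ^ κ e g = g
  mul : ∀ e g (m : ℤ), nf e (g * π e ^ m) = nf e g
  kmul : ∀ e g (m : ℤ), κ e (g * π e ^ m) = κ e g + m
  one : ∀ e, nf e 1 = 1

/-- The head of a word: the first port, or the point. -/
def hd {E H : Type} : List (E × H) → H → GP E H
  | [], y => .inl y
  | p :: _, _ => .inr p

/-- Reduced lists of ports. -/
def Rd {E H : Type} [Group H] (bar : E → E) (nf : E → H → H) : List (E × H) → Prop
  | [] => True
  | p :: l => nf p.1 p.2 = p.2 ∧ l.head? ≠ some (bar p.1, 1) ∧ Rd bar nf l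

/-- The part of the distance behind the head. -/
noncomputable def tl {E H : Type} [Group H] (bar : E → E) (D : GP E H → GP E H → ℝ) :
    List (E × H) → H → ℝ ×ₗ ℝ
  | [], _ => 0
  | p :: l, y => toLex (1, D (.inr (bar p.1, 1)) (hd l y)) + tl bar D l y

open Classical in
/-- The distance of two words: common ports at the beginning are removed. -/
noncomputable def dd {E H : Type} [Group H] (bar : E → E) (D : GP E H → GP E H → ℝ) :
    List (E × H) → H → List (E × H) → H → ℝ ×ₗ ℝ
  | [], y, l', y' => toLex (0, D (.inl y) (hd l' y')) + tl bar D l' y'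
  | p :: l, y, [], y' => toLex (0, D (.inr p) (.inl y')) + tl bar D (p :: l) y
  | p :: l, y, p' :: l', y' =>
    if p = p' then dd bar D l y l' y'
    else toLex (0, D (.inr p) (.inr p')) + (tl bar D (p :: l) y + tl bar D (p' :: l') y')

/-- Left multiplication with `h`. -/
def ac {E H : Type} [Group H] (bar : E → E) (π : E → H) (nf : E → H → H) (κ : E → H → ℤ) :
    H → List (E × H) → H → List (E × H) × H
  | h, [], y => ([], h * y)
  | h, (e, g) :: l, y =>
    ((e, nf e (h * g)) :: (ac bar π nf κ (π (bar e) ^ (-κ e (h * g))) l y).1,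
      (ac bar π nf κ (π (bar e) ^ (-κ e (h * g))) l y).2)

open Classical in
/-- Left multiplication with `s e`: push the port `(e, 1)` or pop the port `(bar e, 1)`. -/
noncomputable def sac {E H : Type} [Group H] (bar : E → E) (e : E) :
    List (E × H) → List (E × H)
  | [] => [(e, 1)]
  | q :: l => if q = (bar e, 1) then l else (e, 1) :: q :: l

/-- The value of a word in a group `Γ`. -/
def ev {E H : Type} [Group H] {Γ : Type} [Group Γ] (ι : H →* Γ) (s : E → Γ) :
    List (E × H) → H → Γ
  | [], y => ι y
  | p :: l, y => ι p.2 * s p.1 * ev ι s l y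

/-- The space of reduced words. -/
abbrev XX {E H : Type} [Group H] (bar : E → E) (nf : E → H → H) : Type :=
  {w : List (E × H) × H // Rd bar nf w.1}

/-- The distance on the space of reduced words. -/
noncomputable def dX {E H : Type} [Group H] (bar : E → E) (D : GP E H → GP E H → ℝ)
    (nf : E → H → H) (x y : XX bar nf) : ℝ ×ₗ ℝ :=
  dd bar D x.1.1 x.1.2 y.1.1 y.1.2

end Pool.Agent.LF
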