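import Pool.Agent.Lib.LF.X.Defs

/-!
# C43, Block X: the statements

One Lean task for each `def XStmt : Prop`: file `Pool/Agent/Lib/LF/X/<Name>.lean`, import this file,
`namespace Pool.Agent.LF`, `theorem x<Name> : <Name>Stmt` (statements which are used are hypotheses,
in the order of the docstring: `theorem x<Name> (h1 : AStmt) (h2 : BStmt) : <Name>Stmt`).
-/

set_option autoImplicit false

namespace Pool.Agent.LF

/-- **NfX.** (60 lines)  Representatives of the cosets.

*Proof.*  `PD.shift` with `z = inl 1` (`SP` with a point is false) gives `D (inr (e, g * π e ^ m)) z = D (inr (e, g)) z + m * lam e` for all integers `m`, so `π e ^ m = 1` implies `m = 0`.  `nf e g = 1` if `g ∈ zpowers (π e)`, otherwise the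
chosen element of the coset of `g` (`Quotient.out`); `κ e g` is the unique integer with `nf e g * π e ^ κ e g = g`. -/
def NfXStmt : Prop :=
  ∀ (E H : Type) [Group H] (bar : E → E) (π : E → H) (lam : E → ℝ) (D : GP E H → GP E H → ℝ),
    PD E H bar π lam D → ∃ (nf : E → H → H) (κ : E → H → ℤ), NF π nf κ

/-- **RdX.** (50 lines)  Left multiplication preserves reduced words.

*Proof.*  Induction on `l`.  The new head is `(e', nf e' (h * g))`, and `nf e' (nf e' x) = nf e' x` (`nf x = x * π ^ (-κ x)`).  Head property: if `e' = e` and `nf e (π e ^ m * g) = 1` then `π e ^ m * g = π e ^ κ`, so `g = 1 * π e ^ (κ - m)`, `g = nf e g = nf e 1 = 1`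
(`l` is reduced).  For the induction the head property is used for `c = π (bar e') ^ (-κ)` and the list behind the head (whose head is not `(bar e', 1)`). -/
def RdXStmt : Prop :=
  ∀ (E H : Type) [Group H] (bar : E → E) (π : E → H) (nf : E → H → H) (κ : E → H → ℤ),
    NF π nf κ → ∀ (l : List (E × H)) (h y : H), Rd bar nf l →
      Rd bar nf (ac bar π nf κ h l y).1 ∧
      ∀ (e : E) (m : ℤ), h = π e ^ m → l.head? ≠ some (e, 1) →
        (ac bar π nf κ h l y).1.head? ≠ some (e, 1)

/-- **MulX.** (50 lines)  Left multiplication is an action.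

*Proof.*  `κ e g = 0` if `nf e g = g`: then `π ^ κ = 1`, and `κ e (g * π ^ κ) = κ + κ`.  The second part by induction on `l`: `h * nf (h' g) = h h' g π ^ (-κ')` with `κ' = κ (h' g)`, so `nf (h * nf (h' g)) = nf (h h' g)` and `κ (h * nf (h' g)) = κ (h h' g) - κ'`; the exponents of `π (bar e)` add up. -/
def MulXStmt : Prop :=
  ∀ (E H : Type) [Group H] (bar : E → E) (π : E → H) (nf : E → H → H) (κ : E → H → ℤ),
    NF π nf κ →
    (∀ (l : List (E × H)) (y : H), Rd bar nf l → ac bar π nf κ 1 l y = (l, y)) ∧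
    ∀ (l : List (E × H)) (h h' y : H), ac bar π nf κ (h * h') l y =
      ac bar π nf κ h (ac bar π nf κ h' l y).1 (ac bar π nf κ h' l y).2

/-- **SacX.** (30 lines)  Push and pop are inverse to each other. -/
def SacXStmt : Prop :=
  ∀ (E H : Type) [Group H] (bar : E → E) (nf : E → H → H),
    (∀ e, bar (bar e) = e) → (∀ e, nf e 1 = 1) →
    ∀ (e : E) (l : List (E × H)), Rd bar nf l →
      Rd bar nf (sac bar e l) ∧ sac bar (bar e) (sac bar e l) = l

/-- **RelX.** (60 lines)  Uses RdX.  The relation `π e * s e = s e * (π (bar e))⁻¹`.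

*Proof.*  `κ e (π e) = 1`, `nf e (π e) = 1`, `κ (bar e) (π (bar e))⁻¹ = -1`.  Three cases: `l = []`; `l = (bar e, 1) :: l'` (both sides are `ac (π e) l' y`); otherwise both sides are `(e, 1) :: ac (π (bar e))⁻¹ l y` (the head of `ac (π (bar e))⁻¹ l y` is not `(bar e, 1)` by RdX). -/
def RelXStmt : Prop :=
  ∀ (E H : Type) [Group H] (bar : E → E) (π : E → H) (nf : E → H → H) (κ : E → H → ℤ),
    (∀ e, bar (bar e) = e) → NF π nf κ → ∀ (e : E) (l : List (E × H)) (y : H), Rd bar nf l →
      ac bar π nf κ (π e) (sac bar e l) y =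
        (sac bar e (ac bar π nf κ (π (bar e))⁻¹ l y).1, (ac bar π nf κ (π (bar e))⁻¹ l y).2)

/-- **ShX.** (40 lines)  Shifts of the horofunctions, and the relation `SP`. -/
def ShXStmt : Prop :=
  ∀ (E H : Type) [Group H] (bar : E → E) (π : E → H) (lam : E → ℝ) (D : GP E H → GP E H → ℝ),
    PD E H bar π lam D →
    (∀ (e : E) (g : H) (m : ℤ) (z : GP E H), ¬ SP π (.inr (e, g)) z →
      D (.inr (e, g * π e ^ m)) z = D (.inr (e, g)) z + m * lam e) ∧
    (∀ z w : GP E H, SP π z w → SP π w z) ∧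
    (∀ z w v : GP E H, SP π z w → SP π w v → SP π z v) ∧
    (∀ (h : H) (z w : GP E H), SP π (lm h z) (lm h w) ↔ SP π z w) ∧
    ∀ (e : E) (g : H) (m : ℤ), SP π (.inr (e, g)) (.inr (e, g * π e ^ m))

/-- **HdX.** (30 lines)  Normalised ports which are equivalent are equal. -/
def HdXStmt : Prop :=
  ∀ (E H : Type) [Group H] (bar : E → E) (π : E → H) (nf : E → H → H) (κ : E → H → ℤ),
    NF π nf κ →
    (∀ p p' : E × H, nf p.1 p.2 = p.2 → nf p'.1 p'.2 = p'.2 → SP π (.inr p) (.inr p') → p = p') ∧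
    ∀ (p : E × H) (l : List (E × H)) (y : H), Rd bar nf (p :: l) →
      ¬ SP π (.inr (bar p.1, 1)) (hd l y)

/-- **TlX.** (80 lines)  Uses ShX, HdX in this order.  The tail of a product.

*Proof.*  Induction on `l`.  `l = []`: both sides are `(0, D (inl (h * y)) z)`.  `(e, g) :: l`: `κ = κ e (h * g)`, `c = π (bar e) ^ (-κ)`.  By induction for `c` and `ζ = inr (bar e, 1)` (`SP (lm c (hd l y)) ζ` is false because `lm c⁻¹ ζ = inr (bar e, π (bar e) ^ κ)` is equivalent to `ζ`, HdX, ShX):
`(0, D (hd (ac c l y)) ζ) + tl (ac c l y) = (0, D (lm c (hd l y)) ζ) + tl l y`, and `D (lm c (hd l y)) ζ = D (hd l y) (inr (bar e, π (bar e) ^ κ)) = D (hd l y) ζ + κ * lam e` (`inv`, `symm`, ShX, `lam_bar`).  So `tl (ac h ((e, g) :: l) y) = tl ((e, g) :: l) y + (0, κ * lam e)`.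
The head: `D (inr (e, h * g)) z = D (inr (e, nf e (h * g))) z + κ * lam e`. -/
def TlXStmt : Prop :=
  ∀ (E H : Type) [Group H] (bar : E → E) (π : E → H) (lam : E → ℝ) (D : GP E H → GP E H → ℝ)
    (nf : E → H → H) (κ : E → H → ℤ), PD E H bar π lam D → NF π nf κ →
    ∀ (l : List (E × H)) (h y : H), Rd bar nf l → ∀ z : GP E H, ¬ SP π (lm h (hd l y)) z →
      toLex (0, D (hd (ac bar π nf κ h l y).1 (ac bar π nf κ h l y).2) z) +
          tl bar D (ac bar π nf κ h l y).1 (ac bar π nf κ h l y).2 =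
        toLex (0, D (lm h (hd l y)) z) + tl bar D l y

/-- **DdX.** (60 lines)  Formulas for the distance.

*Proof.*  Unfold `dd` (cases for both lists).  The last two by induction. -/
def DdXStmt : Prop :=
  ∀ (E H : Type) [Group H] (bar : E → E) (D : GP E H → GP E H → ℝ),
    (∀ z w, D z w = D w z) → (∀ x : H, D (.inl x) (.inl x) = 0) →
    (∀ (p : E × H) (l : List (E × H)) (y : H) (l' : List (E × H)) (y' : H),
      dd bar D (p :: l) y (p :: l') y' = dd bar D l y l' y') ∧
    (∀ (l : List (E × H)) (y : H) (l' : List (E × H)) (y' : H),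
      (∀ p, l.head? = some p → l'.head? = some p → False) →
      dd bar D l y l' y' =
        toLex (0, D (hd l y) (hd l' y')) + (tl bar D l y + tl bar D l' y')) ∧
    (∀ (l : List (E × H)) (y : H), dd bar D l y l y = 0) ∧
    ∀ (l : List (E × H)) (y : H) (l' : List (E × H)) (y' : H),
      dd bar D l y l' y' = dd bar D l' y' l y

/-- **LnX.** (60 lines)  The first component of the distance.

*Proof.*  Induction on `l`, cases for `l'` (`(ofLex (a + b)).1 = (ofLex a).1 + (ofLex b).1` is `rfl`). -/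
def LnXStmt : Prop :=
  ∀ (E H : Type) [Group H] (bar : E → E) (D : GP E H → GP E H → ℝ),
    (∀ (l : List (E × H)) (y : H), (ofLex (tl bar D l y)).1 = l.length) ∧
    (∀ (l : List (E × H)) (y : H) (l' : List (E × H)) (y' : H),
      (ofLex (dd bar D l y l' y')).1 ≤ l.length + l'.length) ∧
    (∀ (l : List (E × H)) (y : H) (l' : List (E × H)) (y' : H),
      (∀ p, l.head? = some p → l'.head? = some p → False) →
      (ofLex (dd bar D l y l' y')).1 = l.length + l'.length) ∧
    (∀ (p : E × H) (l : List (E × H)) (y : H) (l' : List (E × H)) (y' : H),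
      (ofLex (dd bar D (p :: l) y (p :: l') y')).1 ≤ l.length + l'.length) ∧
    ∀ (l : List (E × H)) (y : H) (l' : List (E × H)) (y' : H),
      ∃ n : ℕ, (ofLex (dd bar D l y l' y')).1 = n

/-- **IhX.** (80 lines)  Uses ShX, HdX, TlX, DdX in this order.  Left multiplication with `h` is an isometry.

*Proof.*  Induction on `l` (general `h`, `l'`).  Both lists have the same head `(e, g)`: the new heads are the same, and both tails are multiplied with the same `c`; induction.  Otherwise `¬ SP (hd l y) (hd l' y')` (HdX, reduced words; `SP` with a point is false), the new heads are not equal (they are equivalent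
to `lm h (hd l y)`, `lm h (hd l' y')`), so by DdX, TlX twice (first with `z = hd (ac h l' y')`, then with `z = lm h (hd l y)`, and `symm`) the distance is `(0, D (lm h (hd l y)) (lm h (hd l' y'))) + tl l y + tl l' y'`, and `PD.inv`. -/
def IhXStmt : Prop :=
  ∀ (E H : Type) [Group H] (bar : E → E) (π : E → H) (lam : E → ℝ) (D : GP E H → GP E H → ℝ)
    (nf : E → H → H) (κ : E → H → ℤ), PD E H bar π lam D → NF π nf κ →
    ∀ (l : List (E × H)) (h y : H) (l' : List (E × H)) (y' : H), Rd bar nf l → Rd bar nf l' →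
      dd bar D (ac bar π nf κ h l y).1 (ac bar π nf κ h l y).2
        (ac bar π nf κ h l' y').1 (ac bar π nf κ h l' y').2 = dd bar D l y l' y'

/-- **IsX.** (60 lines)  Uses DdX.  Push / pop is an isometry.

*Proof.*  If both or none of the lists have head `(bar e, 1)` this is the first formula of DdX.  Let `l = (bar e, 1) :: m` and let `l'` have another head (or none).  `m.head? ≠ some (e, 1)` (reduced, `bar_bar`), so both sides are given by the second formula of DdX:
`D (hd m y) (inr (e, 1))`, `D (inr (bar e, 1)) (hd l' y')`, `tl m y`, `tl l' y'` and `1` are added up on both sides. -/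
def IsXStmt : Prop :=
  ∀ (E H : Type) [Group H] (bar : E → E) (D : GP E H → GP E H → ℝ) (nf : E → H → H),
    (∀ e, bar (bar e) = e) → (∀ z w, D z w = D w z) → (∀ x : H, D (.inl x) (.inl x) = 0) →
    ∀ (e : E) (l : List (E × H)) (y : H) (l' : List (E × H)) (y' : H), Rd bar nf l →
      Rd bar nf l' → dd bar D (sac bar e l) y (sac bar e l') y' = dd bar D l y l' y'

/-- **FcX.** (100 lines)  The four-point inequality if no three of the heads agree.

*Proof.*  Let `A = δ 0 1 + δ 2 3`, `B = δ 0 2 + δ 1 3`, `C = δ 0 3 + δ 1 2` and `S = t 0 + t 1 + t 2 + t 3`.  A pair `{i, j}` is small if `SP (η i) (η j)`.  If `A` has a small pair (`{0, 1}` or `{2, 3}`) then `B` has none (otherwise three heads agree), so the first component of `B` is that of `S`, and the first component of `A` is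
smaller (for a pair which is not small the first component of `δ i j` is that of `t i + t j`), `A < B`.  If `A` has no small pair and `B` has one, e.g. `{0, 2}`, then `C` has none, `η 0 = η 2`, and `C = A`; in the same way if `C` has a small pair then `B = A`.  If there is no small pair use `PD.hyp`
(with `SP` for all pairs, symmetric). -/
def FcXStmt : Prop :=
  ∀ (E H : Type) [Group H] (bar : E → E) (π : E → H) (lam : E → ℝ) (D : GP E H → GP E H → ℝ),
    PD E H bar π lam D →
    ∀ (η : Fin 4 → GP E H) (t : Fin 4 → ℝ ×ₗ ℝ) (δ : Fin 4 → Fin 4 → ℝ ×ₗ ℝ),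
      (∀ i j, δ i j = δ j i) → (∀ i j, SP π (η i) (η j) → SP π (η j) (η i)) →
      (∀ i j, i ≠ j → ¬ SP π (η i) (η j) → δ i j = toLex (0, D (η i) (η j)) + (t i + t j)) →
      (∀ i j, i ≠ j → SP π (η i) (η j) → η i = η j ∧
        (ofLex (δ i j)).1 < (ofLex (t i)).1 + (ofLex (t j)).1) →
      (∀ i j k, i ≠ j → j ≠ k → i ≠ k → ¬ (SP π (η i) (η j) ∧ SP π (η j) (η k))) →
      δ 0 1 + δ 2 3 ≤ max (δ 0 2 + δ 1 3) (δ 0 3 + δ 1 2)

/-- **P3X.** (100 lines)  Uses ShX, HdX, DdX, LnX, FcX in this order.  Three points and a base point `ζ`.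

*Proof.*  Induction on `l₁` (general `ζ`).  If all three lists have the same head `p`: `dd` of two of them is `dd` of the lists behind `p`, and `(0, D ζ (inr p)) + tl (p :: l) y = (1, D ζ (inr p)) + ((0, D ζ' (hd l y)) + tl l y)` with `ζ' = inr (bar p.1, 1)`; the induction hypothesis for `ζ'` (HdX).  Otherwise FcX for
`η = ![hd l₁ y₁, hd l₂ y₂, hd l₃ y₃, ζ]`, `t = ![tl l₁ y₁, tl l₂ y₂, tl l₃ y₃, 0]`: equivalent heads are equal ports (HdX; the heads of reduced lists are normalised), and for equal heads `p` the first component of `dd` is at most the sum of the lengths of the lists behind `p` (LnX). -/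
def P3XStmt : Prop :=
  ∀ (E H : Type) [Group H] (bar : E → E) (π : E → H) (lam : E → ℝ) (D : GP E H → GP E H → ℝ)
    (nf : E → H → H) (κ : E → H → ℤ), PD E H bar π lam D → NF π nf κ →
    ∀ (l₁ : List (E × H)) (y₁ : H) (l₂ : List (E × H)) (y₂ : H) (l₃ : List (E × H)) (y₃ : H)
      (ζ : GP E H), Rd bar nf l₁ → Rd bar nf l₂ → Rd bar nf l₃ → ¬ SP π ζ (hd l₁ y₁) →
      ¬ SP π ζ (hd l₂ y₂) → ¬ SP π ζ (hd l₃ y₃) →
      dd bar D l₁ y₁ l₂ y₂ + (toLex (0, D ζ (hd l₃ y₃)) + tl bar D l₃ y₃) ≤
        max (dd bar D l₁ y₁ l₃ y₃ + (toLex (0, D ζ (hd l₂ y₂)) + tl bar D l₂ y₂))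
          (dd bar D l₂ y₂ l₃ y₃ + (toLex (0, D ζ (hd l₁ y₁)) + tl bar D l₁ y₁))

/-- **P4X.** (120 lines)  Uses ShX, HdX, DdX, LnX, FcX, P3X in this order.  The four-point inequality.

*Proof.*  Induction on the list of `w`.  All four lists have the same head: remove it (DdX).  Exactly three of them have the same head `p`: because of the symmetry of the inequality under `(w x)(y z)`, `(w y)(x z)`, `(w z)(x y)` (and of `dd`) let `w`, `x`, `y` have the head `p`; by the second formula of DdX the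
terms with `z` are `(0, D (inr p) (hd z)) + tl + tl z`, and the inequality is P3X for `ζ = inr (bar p.1, 1)` and the lists behind `p`.  Otherwise FcX for the four heads (as in P3X). -/
def P4XStmt : Prop :=
  ∀ (E H : Type) [Group H] (bar : E → E) (π : E → H) (lam : E → ℝ) (D : GP E H → GP E H → ℝ)
    (nf : E → H → H) (κ : E → H → ℤ), PD E H bar π lam D → NF π nf κ →
    ∀ w x y z : XX bar nf, dX bar D nf w x + dX bar D nf y z ≤
      max (dX bar D nf w y + dX bar D nf x z) (dX bar D nf w z + dX bar D nf x y)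

/-- **ActX.** (60 lines)  Uses RdX, MulX, SacX, RelX in this order.  The action of `Γ`.

*Proof.*  `φ h x = ac h x` (a permutation with inverse `φ h⁻¹`, MulX), a homomorphism `H → Perm (XX bar nf)`; `σ e x = (sac e x.1.1, x.1.2)`, a permutation with inverse `σ (bar e)` (SacX).  The relation by RelX.  The universal property gives `A`. -/
def ActXStmt : Prop :=
  ∀ (E H : Type) [Group H] (bar : E → E) (π : E → H) (nf : E → H → H) (κ : E → H → ℤ),
    (∀ e, bar (bar e) = e) → NF π nf κ → ∀ (Γ : Type) [Group Γ] (ι : H →* Γ) (s : E → Γ),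
    (∀ (Q : Type) [Group Q] (φ : H →* Q) (σ : E → Q), (∀ e, σ (bar e) = (σ e)⁻¹) →
      (∀ e, φ (π e) * σ e = σ e * (φ (π (bar e)))⁻¹) →
      ∃ ψ : Γ →* Q, (∀ h, ψ (ι h) = φ h) ∧ ∀ e, ψ (s e) = σ e) →
    ∃ A : Γ →* Equiv.Perm (XX bar nf),
      (∀ (h : H) (x : XX bar nf), (A (ι h) x).1 = ac bar π nf κ h x.1.1 x.1.2) ∧
      ∀ (e : E) (x : XX bar nf), (A (s e) x).1 = (sac bar e x.1.1, x.1.2)

/-- **EvX.** (50 lines)  The value of a word.

*Proof.*  First part by induction on `l`: `s e * ι (π (bar e)) ^ (-κ) = ι (π e) ^ κ * s e` (the relation for powers). -/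
def EvXStmt : Prop :=
  ∀ (E H : Type) [Group H] (bar : E → E) (π : E → H) (nf : E → H → H) (κ : E → H → ℤ),
    NF π nf κ → ∀ (Γ : Type) [Group Γ] (ι : H →* Γ) (s : E → Γ), (∀ e, s (bar e) = (s e)⁻¹) →
    (∀ e, ι (π e) * s e = s e * (ι (π (bar e)))⁻¹) →
    (∀ (l : List (E × H)) (h y : H),
      ev ι s (ac bar π nf κ h l y).1 (ac bar π nf κ h l y).2 = ι h * ev ι s l y) ∧
    ∀ (e : E) (l : List (E × H)) (y : H), ev ι s (sac bar e l) y = s e * ev ι s l y

/-- **GnX.** (60 lines)  Uses EvX, IhX, IsX in this order.  The action of all elements of `Γ`.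

*Proof.*  `Subgroup.closure_induction`; for inverses use bijectivity (`A g⁻¹ = (A g)⁻¹`). -/
def GnXStmt : Prop :=
  ∀ (E H : Type) [Group H] (bar : E → E) (π : E → H) (lam : E → ℝ) (D : GP E H → GP E H → ℝ)
    (nf : E → H → H) (κ : E → H → ℤ), PD E H bar π lam D → NF π nf κ →
    ∀ (Γ : Type) [Group Γ] (ι : H →* Γ) (s : E → Γ), (∀ e, s (bar e) = (s e)⁻¹) →
    (∀ e, ι (π e) * s e = s e * (ι (π (bar e)))⁻¹) →
    Subgroup.closure (Set.range ι ∪ Set.range s) = ⊤ →
    ∀ A : Γ →* Equiv.Perm (XX bar nf),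
      (∀ (h : H) (x : XX bar nf), (A (ι h) x).1 = ac bar π nf κ h x.1.1 x.1.2) →
      (∀ (e : E) (x : XX bar nf), (A (s e) x).1 = (sac bar e x.1.1, x.1.2)) →
      (∀ (g : Γ) (x : XX bar nf), ev ι s (A g x).1.1 (A g x).1.2 = g * ev ι s x.1.1 x.1.2) ∧
      ∀ (g : Γ) (x y : XX bar nf), dX bar D nf (A g x) (A g y) = dX bar D nf x y

/-- **FrX.** (200 lines)  Uses DdX, LnX in this order.  The action is free.

*Proof.*  `x₀ = ([], 1)`.  For `k ∈ Γ` the first component of `dX (A k x₀) (A g (A k x₀))` is a natural number (LnX); choose `k` such that it is minimal, `g' = k⁻¹ g k`, `n` the length of the list of `A g' x₀`, which is the minimal value (`dX (A k x₀) (A g (A k x₀)) = dX x₀ (A g' x₀)`).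
`n = 0`: `A g' x₀ = ([], h)`, so `g' = ι h` (`ev`), `h ≠ 1`; `x` from the hypothesis about `H`; `y = A k ([], x)`: `dX y (A g y) = (0, D (inl x) (inl (h * x)))`, `dX y (A g (A g y)) = (0, D (inl x) (inl (h * (h * x))))`.
`n ≥ 1`: the list of `A g'⁻¹ x₀` has length `n` too (isometry).  If `A g' x₀` and `A g'⁻¹ x₀` have different first ports then the first component of `dX (A g'⁻¹ x₀) (A g' x₀)` is `2 n > n` (LnX), and `y = A k x₀` is good (`dX y (A g (A g y)) = dX (A g'⁻¹ x₀) (A g' x₀)`).
Suppose that both have the first port `p = (e, a)`.  `x₁ = ([p], 1) = A (ι a * s e) x₀` (`κ e a = 0` because `nf e a = a`).  Four-point inequality for `x₀, A g' x₀, x₁, A g' x₁`, first components: `n + m ≤ max (1 + 1) ((n - 1) + (n - 1))`, where `m` is the first component of `dX x₁ (A g' x₁)`: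
`dX x₁ (A g' x₀)` and `dX (A g'⁻¹ x₀) x₁ = dX x₀ (A g' x₁)` have first component at most `n - 1` (LnX, common first port).  `m ≥ n` by minimality (`k' = k * ι a * s e`), so `n = 1`.  Then `A g' x₀ = ([p], y)`, `A g'⁻¹ x₀ = ([p], z)`, `g' = ι a * s e * ι y`, `g'⁻¹ = ι a * s e * ι z` (`ev`), so
`s e * ι (y * a) * s e = ι (a⁻¹ * z⁻¹)`.  Apply both sides to `x₀`: on the left a list of length `2` (push, multiply, push: the head is `(e, _)`, which is not `(bar e, 1)` because `bar e ≠ e`), on the right a list of length `0`. -/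
def FrXStmt : Prop :=
  ∀ (E H : Type) [Group H] (bar : E → E) (π : E → H) (lam : E → ℝ) (D : GP E H → GP E H → ℝ)
    (nf : E → H → H) (κ : E → H → ℤ), PD E H bar π lam D → NF π nf κ →
    (∀ h : H, h ≠ 1 → ∃ x : H, D (.inl x) (.inl (h * x)) < D (.inl x) (.inl (h * (h * x)))) →
    ∀ (Γ : Type) [Group Γ] (ι : H →* Γ) (s : E → Γ), (∀ e, s (bar e) = (s e)⁻¹) →
    (∀ e, ι (π e) * s e = s e * (ι (π (bar e)))⁻¹) →
    ∀ A : Γ →* Equiv.Perm (XX bar nf),
      (∀ (h : H) (x : XX bar nf), (A (ι h) x).1 = ac bar π nf κ h x.1.1 x.1.2) →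
      (∀ (e : E) (x : XX bar nf), (A (s e) x).1 = (sac bar e x.1.1, x.1.2)) →
      (∀ (g : Γ) (x : XX bar nf), ev ι s (A g x).1.1 (A g x).1.2 = g * ev ι s x.1.1 x.1.2) →
      (∀ (g : Γ) (x y : XX bar nf), dX bar D nf (A g x) (A g y) = dX bar D nf x y) →
      (∀ w x y z : XX bar nf, dX bar D nf w x + dX bar D nf y z ≤
        max (dX bar D nf w y + dX bar D nf x z) (dX bar D nf w z + dX bar D nf x y)) →
      ∀ g : Γ, g ≠ 1 → ∃ y : XX bar nf, dX bar D nf y (A g y) < dX bar D nf y (A g (A g y))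

end Pool.Agent.LF
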